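import Mathlib

/-!
P325s.LiftPow: powers of a nonnegative matrix on `T × L` that lies over a matrix on `T`.

PROOF. By induction on `J`: the entries of `M' ^ J` are `≥ 0`, and
`∑ b, (M' ^ J) (x, a) (y, b) = (M ^ J) x y` (`pow_succ`, `Matrix.mul_apply`, `Fintype.sum_prod_type`; for
`J = 0`: `∑ b, 1 (x, a) (y, b) = 1 x y`). Hence `(M' ^ J) (x, a) (x, a) ≤ (M ^ J) x x` and
`∑ q, κ q * (M' ^ J) q q ≤ ∑ x, (∑ a, κ (x, a)) * (M ^ J) x x = trace (M ^ J)`.
-/

open scoped BigOperators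

namespace Pool.Agent.Lib.P325s

theorem lift_pow_nonneg {P : Type} [Fintype P] [DecidableEq P] {M : Matrix P P ℝ}
    (h0 : ∀ p q, 0 ≤ M p q) (J : ℕ) (p q : P) : 0 ≤ (M ^ J) p q := by
  induction J generalizing p q with
  | zero =>
    rw [pow_zero, Matrix.one_apply]
    split_ifs <;> norm_num
  | succ J ih =>
    rw [pow_succ, Matrix.mul_apply]
    exact Finset.sum_nonneg fun r _ => mul_nonneg (ih p r) (h0 r q)

theorem lift_pow_row {T L : Type} [Fintype T] [DecidableEq T] [Fintype L] [DecidableEq L]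
    {M : Matrix T T ℝ} {M' : Matrix (T × L) (T × L) ℝ}
    (h1 : ∀ x a y, ∑ b, M' (x, a) (y, b) = M x y) (J : ℕ) (x : T) (a : L) (y : T) :
    ∑ b, (M' ^ J) (x, a) (y, b) = (M ^ J) x y := by
  induction J generalizing y with
  | zero =>
    simp only [pow_zero, Matrix.one_apply, Prod.mk.injEq]
    by_cases hxy : x = y
    · simp [hxy]
    · simp [hxy]
  | succ J ih =>
    simp only [pow_succ, Matrix.mul_apply]
    rw [Finset.sum_comm, Fintype.sum_prod_type]
    refine Finset.sum_congr rfl fun z _ => ?_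
    rw [← ih z, Finset.sum_mul]
    refine Finset.sum_congr rfl fun c _ => ?_
    rw [← h1 z c y, Finset.mul_sum]

theorem lift_pow {T L : Type} [Fintype T] [DecidableEq T] [Fintype L] [DecidableEq L]
    {M : Matrix T T ℝ} {M' : Matrix (T × L) (T × L) ℝ} (h0 : ∀ p q, 0 ≤ M' p q)
    (h1 : ∀ x a y, ∑ b, M' (x, a) (y, b) = M x y) {κ : T × L → ℝ} (hκ0 : ∀ q, 0 ≤ κ q)
    (hκ1 : ∀ x, ∑ a, κ (x, a) = 1) (J : ℕ) :
    ∑ q, κ q * (M' ^ J) q q ≤ (M ^ J).trace := by
  rw [Fintype.sum_prod_type]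
  unfold Matrix.trace
  refine Finset.sum_le_sum fun x _ => ?_
  rw [Matrix.diag_apply]
  calc ∑ a, κ (x, a) * (M' ^ J) (x, a) (x, a)
      ≤ ∑ a, κ (x, a) * (M ^ J) x x := by
        refine Finset.sum_le_sum fun a _ => mul_le_mul_of_nonneg_left ?_ (hκ0 (x, a))
        rw [← lift_pow_row h1 J x a x]
        exact Finset.single_le_sum (f := fun b => (M' ^ J) (x, a) (x, b))
          (fun b _ => lift_pow_nonneg h0 J _ _) (Finset.mem_univ a)
    _ = (M ^ J) x x := by rw [← Finset.sum_mul, hκ1 x, one_mul]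

end Pool.Agent.Lib.P325s
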