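import Mathlib

/-!
P325s.Moment: moments of a symmetric matrix against a positive semidefinite one.

PROOF. `sq_trace_le`: for every real `r`, `0 ≤ trace ((M - r) X (M - r)) = trace (X M²) - 2 r trace (X M) +
r² trace X` (`(M - r)ᵀ = M - r`, `Matrix.PosSemidef.conjTranspose_mul_mul_same`, `trace_mul_cycle`);
take `r = trace (X M) / trace X`.
`moment_pow`: induction on `q`; `M ^ 2^(q+1) = (M ^ 2^q)²` and `M ^ 2^q` is symmetric.
`frob`: `trace (X A) = ∑ q, ∑ p, X p q * A p q` (`A = M ^ J` symmetric)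
`= ∑ q, ∑ p, (X p q / √(κ q)) * (√(κ q) * A p q)` (terms with `κ q = 0` vanish by `hX`), Cauchy-Schwarz,
and `∑ p, (A p q)² = (A * A) q q`, `A * A = M ^ (2 * J)`.
-/

open scoped BigOperators

namespace Pool.Agent.Lib.P325s

theorem sq_trace_le {P : Type} [Fintype P] [DecidableEq P] {X M : Matrix P P ℝ}
    (hX : X.PosSemidef) (hM : M.IsSymm) (htr : 0 < X.trace) :
    (X * M).trace ^ 2 ≤ X.trace * (X * (M * M)).trace := by
  have key : ∀ r : ℝ, 0 ≤ (X * (M * M)).trace - 2 * r * (X * M).trace + r ^ 2 * X.trace := by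
    intro r
    have h1 := hX.conjTranspose_mul_mul_same (M - r • (1 : Matrix P P ℝ))
    have h2 := h1.trace_nonneg
    have h3 : (M - r • (1 : Matrix P P ℝ)).conjTranspose = M - r • (1 : Matrix P P ℝ) := by
      rw [Matrix.conjTranspose_eq_transpose_of_trivial, Matrix.transpose_sub, hM,
        Matrix.transpose_smul, Matrix.transpose_one]
    rw [h3] at h2
    have h4 : ((M - r • (1 : Matrix P P ℝ)) * X * (M - r • (1 : Matrix P P ℝ))).trace =
        (X * (M * M)).trace - 2 * r * (X * M).trace + r ^ 2 * X.trace := by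
      have h5 : (M - r • (1 : Matrix P P ℝ)) * (M - r • (1 : Matrix P P ℝ)) =
          M * M - (2 * r) • M + (r ^ 2) • (1 : Matrix P P ℝ) := by
        simp only [Matrix.sub_mul, Matrix.mul_sub, Matrix.smul_mul, Matrix.mul_smul,
          Matrix.one_mul, Matrix.mul_one]
        module
      rw [Matrix.trace_mul_cycle, Matrix.trace_mul_comm, h5]
      simp only [Matrix.mul_add, Matrix.mul_sub, Matrix.mul_smul, Matrix.mul_one,
        Matrix.trace_add, Matrix.trace_sub, Matrix.trace_smul, smul_eq_mul]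
    rw [h4] at h2
    exact h2
  have h := key ((X * M).trace / X.trace)
  have h7 : (X * (M * M)).trace - 2 * ((X * M).trace / X.trace) * (X * M).trace +
      ((X * M).trace / X.trace) ^ 2 * X.trace =
      ((X.trace * (X * (M * M)).trace) - (X * M).trace ^ 2) / X.trace := by
    field_simp
    ring
  rw [h7] at h
  have h8 := (div_nonneg_iff.1 h)
  rcases h8 with h8 | h8
  · linarith [h8.1]
  · linarith [h8.2]

theorem moment_pow {P : Type} [Fintype P] [DecidableEq P] {X M : Matrix P P ℝ}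
    (hX : X.PosSemidef) (hM : M.IsSymm) (htr : 0 < X.trace) (h0 : 0 ≤ (X * M).trace) (q : ℕ) :
    X.trace * ((X * M).trace / X.trace) ^ (2 ^ q) ≤ (X * M ^ (2 ^ q)).trace := by
  induction q with
  | zero =>
    simp only [pow_zero, pow_one]
    rw [mul_div_cancel₀ _ htr.ne']
  | succ q ih =>
    have hs : (M ^ (2 ^ q)).IsSymm := by
      unfold Matrix.IsSymm
      rw [Matrix.transpose_pow, hM]
    have h1 := sq_trace_le hX hs htr
    have h2 : M ^ (2 ^ q) * M ^ (2 ^ q) = M ^ (2 ^ (q + 1)) := by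
      rw [← pow_add]; congr 1; rw [pow_succ]; ring
    rw [h2] at h1
    set a : ℝ := (X * M).trace / X.trace with ha
    have ha0 : 0 ≤ a := div_nonneg h0 htr.le
    have h3 : (X.trace * a ^ (2 ^ q)) ^ 2 ≤ (X * M ^ (2 ^ q)).trace ^ 2 :=
      pow_le_pow_left₀ (by positivity) ih 2
    have h4 : X.trace * (X.trace * a ^ (2 ^ (q + 1))) ≤
        X.trace * (X * M ^ (2 ^ (q + 1))).trace := by
      refine le_trans (le_of_eq ?_) (h3.trans h1)
      rw [pow_succ 2 q, pow_mul]
      ring
    exact le_of_mul_le_mul_left h4 htr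

theorem frob {P : Type} [Fintype P] [DecidableEq P] {X M : Matrix P P ℝ} (hM : M.IsSymm)
    {κ : P → ℝ} (hκ : ∀ q, 0 ≤ κ q) (hX : ∀ p q, κ q = 0 → X p q = 0) (J : ℕ) :
    (X * M ^ J).trace ^ 2 ≤ (∑ p, ∑ q, X p q ^ 2 / κ q) * ∑ q, κ q * (M ^ (2 * J)) q q := by
  set A : Matrix P P ℝ := M ^ J with hA
  have hAs : ∀ p q, A p q = A q p := by
    intro p q
    have : A.transpose = A := by
      rw [hA, Matrix.transpose_pow, hM]
    calc A p q = A.transpose p q := by rw [this]
      _ = A q p := rfl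
  have h1 : (X * A).trace = ∑ z : P × P, (X z.1 z.2 / √(κ z.2)) * (√(κ z.2) * A z.1 z.2) := by
    rw [Fintype.sum_prod_type]
    simp only [Matrix.trace, Matrix.diag, Matrix.mul_apply]
    refine Finset.sum_congr rfl fun p _ => Finset.sum_congr rfl fun q _ => ?_
    rcases (hκ q).eq_or_lt with h | h
    · rw [hX p q h.symm]; simp
    · have : √(κ q) ≠ 0 := (Real.sqrt_pos.2 h).ne'
      rw [hAs q p]
      field_simp
  have h2 : ∑ z : P × P, (X z.1 z.2 / √(κ z.2)) ^ 2 = ∑ p, ∑ q, X p q ^ 2 / κ q := by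
    rw [Fintype.sum_prod_type]
    refine Finset.sum_congr rfl fun p _ => Finset.sum_congr rfl fun q _ => ?_
    rw [div_pow, Real.sq_sqrt (hκ q)]
  have h3 : ∑ z : P × P, (√(κ z.2) * A z.1 z.2) ^ 2 = ∑ q, κ q * (M ^ (2 * J)) q q := by
    rw [Fintype.sum_prod_type, Finset.sum_comm]
    refine Finset.sum_congr rfl fun q _ => ?_
    have h4 : M ^ (2 * J) = A * A := by rw [hA, ← pow_add]; congr 1; ring
    rw [h4, Matrix.mul_apply, Finset.mul_sum]
    refine Finset.sum_congr rfl fun p _ => ?_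
    rw [mul_pow, Real.sq_sqrt (hκ q), hAs q p]
    ring
  rw [h1, ← h2, ← h3]
  exact Finset.sum_mul_sq_le_sq_mul_sq _ _ _

end Pool.Agent.Lib.P325s
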