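import Pool.Agent.Lib.P325s.FuncDefs

/-!
P325s.SplitEnt: the entropy decreases at least by the relative entropy of the split off part.

PROOF. Put `a x = p x * ρ x`, `b x = u * f x * a x`, `c x = a x - b x` (all `≥ 0`), and
`A, B, C` their sums. With `negMulLog y = - y log y`,
`ent ρ - ent (uρf) - ent (ρ(1-uf)) = [∑ b log (b/a) - B log (B/A)] + [∑ c log (c/a) - C log (C/A)]`
(terms with `a x = 0` vanish). The second bracket is `≥ 0` by the log-sum inequality: for
`c, a ≥ 0`, `C > 0`: `c log (c/a) ≥ c log (C/A) + c - a C/A` (from `log y ≥ 1 - 1/y` with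
`y = (c/a)/(C/A)`), and the sum of the last two terms is `0`. The first bracket equals
`∑ u f a log (u f) - u (∑ f a) log (u fb)  = u ∑ a f log (f / fb)` as `B / A = u fb`.
-/

open scoped BigOperators

namespace Pool.Agent.Lib.P325s

private lemma cpart {a c r : ℝ} (ha : 0 ≤ a) (hc : 0 ≤ c) (hca : c ≤ a) (hr : 0 ≤ r)
    (hrc : r = 0 → c = 0) :
    c * Real.log r + c - a * r ≤ c * Real.log c - c * Real.log a := by
  rcases hc.eq_or_lt with h | h
  · subst h
    have := mul_nonneg ha hr
    simp only [zero_mul]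
    linarith
  · have ha' : 0 < a := lt_of_lt_of_le h hca
    have hr' : 0 < r := lt_of_le_of_ne hr (fun h0 => h.ne' (hrc h0.symm))
    have h1 : Real.log (a * r / c) ≤ a * r / c - 1 :=
      Real.log_le_sub_one_of_pos (by positivity)
    rw [Real.log_div (by positivity) h.ne', Real.log_mul ha'.ne' hr'.ne'] at h1
    have h2 := mul_le_mul_of_nonneg_left h1 hc
    have h3 : c * (a * r / c - 1) = a * r - c := by field_simp
    rw [h3] at h2
    nlinarith [h2]

private lemma bpart {a u f : ℝ} (ha : 0 ≤ a) (hu : 0 < u) (hf : 0 ≤ f) :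
    (u * f * a) * (Real.log u + Real.log f) =
      (u * f * a) * Real.log (u * f * a) - (u * f * a) * Real.log a := by
  rcases ha.eq_or_lt with h | h
  · subst h; simp
  rcases hf.eq_or_lt with h' | h'
  · subst h'; simp
  rw [Real.log_mul (by positivity) h.ne', Real.log_mul hu.ne' h'.ne']
  ring

theorem split_ent {V : Type} [Fintype V] {p ρ f : V → ℝ} (hp : ∀ x, 0 ≤ p x)
    (hρ : ∀ x, 0 ≤ ρ x) (hf : ∀ x, 0 ≤ f x) {u fb : ℝ} (hu : 0 < u) (huf : ∀ x, u * f x ≤ 1)
    (hfb : 0 < fb) (hmean : ∑ x, p x * ρ x * f x = fb * ∑ x, p x * ρ x) :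
    u * ∑ x, p x * ρ x * f x * Real.log (f x / fb) ≤
      ent p ρ - ent p (fun x => u * (ρ x * f x)) - ent p (fun x => ρ x * (1 - u * f x)) := by
  have ha : ∀ x, 0 ≤ p x * ρ x := fun x => mul_nonneg (hp x) (hρ x)
  obtain ⟨A, hA⟩ : ∃ A, ∑ x, p x * ρ x = A := ⟨_, rfl⟩
  have hA0 : 0 ≤ A := hA ▸ Finset.sum_nonneg fun x _ => ha x
  -- sums
  have hB : ∑ x, p x * (u * (ρ x * f x)) = u * fb * A := by
    rw [← hA, mul_assoc, ← hmean, Finset.mul_sum]
    exact Finset.sum_congr rfl fun x _ => by ring
  have hC : ∑ x, p x * (ρ x * (1 - u * f x)) = A - u * fb * A := by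
    rw [← hB, ← hA, ← Finset.sum_sub_distrib]
    exact Finset.sum_congr rfl fun x _ => by ring
  rcases hA0.eq_or_lt with hz | hApos
  · -- everything vanishes
    have h0 : ∀ x, p x * ρ x = 0 := by
      intro x
      have := (Finset.sum_eq_zero_iff_of_nonneg (fun x _ => ha x)).1 (hA.trans hz.symm)
      exact this x (Finset.mem_univ x)
    have e1 : ∀ x, p x * (u * (ρ x * f x)) = 0 := fun x => by
      have : p x * (u * (ρ x * f x)) = (p x * ρ x) * (u * f x) := by ring
      rw [this, h0 x, zero_mul]
    have e2 : ∀ x, p x * (ρ x * (1 - u * f x)) = 0 := fun x => by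
      have : p x * (ρ x * (1 - u * f x)) = (p x * ρ x) * (1 - u * f x) := by ring
      rw [this, h0 x, zero_mul]
    simp [ent, h0, e1, e2]
  · have hCn : ∀ x, 0 ≤ p x * (ρ x * (1 - u * f x)) := fun x =>
      mul_nonneg (hp x) (mul_nonneg (hρ x) (by linarith [huf x]))
    obtain ⟨C, hCdef⟩ : ∃ C, A - u * fb * A = C := ⟨_, rfl⟩
    rw [hCdef] at hC
    have hC0 : 0 ≤ C := hC ▸ Finset.sum_nonneg fun x _ => hCn x
    have hr0 : 0 ≤ C / A := div_nonneg hC0 hA0
    have hrc : ∀ x, C / A = 0 → p x * (ρ x * (1 - u * f x)) = 0 := by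
      intro x h
      have hC' : C = 0 := by
        rcases div_eq_zero_iff.1 h with h | h
        · exact h
        · exact absurd h hApos.ne'
      have := (Finset.sum_eq_zero_iff_of_nonneg (fun x _ => hCn x)).1 (hC.trans hC')
      exact this x (Finset.mem_univ x)
    -- pointwise inequality
    have key : ∀ x, (u * f x * (p x * ρ x)) * (Real.log u + Real.log (f x)) +
        (p x * (ρ x * (1 - u * f x)) * Real.log (C / A) + p x * (ρ x * (1 - u * f x)) -
          p x * ρ x * (C / A)) ≤
        Real.negMulLog (p x * ρ x) - Real.negMulLog (p x * (u * (ρ x * f x))) -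
          Real.negMulLog (p x * (ρ x * (1 - u * f x))) := by
      intro x
      have h1 := bpart (ha x) hu (hf x)
      have h2 := cpart (ha x) (hCn x)
        (by nlinarith [mul_nonneg (ha x) (mul_nonneg hu.le (hf x))]) hr0 (hrc x)
      have h3 : p x * (u * (ρ x * f x)) = u * f x * (p x * ρ x) := by ring
      rw [h3]
      simp only [Real.negMulLog]
      have h4 : p x * ρ x * Real.log (p x * ρ x) =
          u * f x * (p x * ρ x) * Real.log (p x * ρ x) +
          p x * (ρ x * (1 - u * f x)) * Real.log (p x * ρ x) := by ring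
      linarith
    have hsum := Finset.sum_le_sum fun x (_ : x ∈ Finset.univ) => key x
    rw [Finset.sum_sub_distrib, Finset.sum_sub_distrib, Finset.sum_add_distrib,
      Finset.sum_sub_distrib, Finset.sum_add_distrib, ← Finset.sum_mul, ← Finset.sum_mul,
      hC, hA] at hsum
    have hCA : A * (C / A) = C := by field_simp
    rw [hCA] at hsum
    -- the left side
    have hL : u * ∑ x, p x * ρ x * f x * Real.log (f x / fb) =
        ∑ x, (u * f x * (p x * ρ x)) * (Real.log u + Real.log (f x)) -
          u * fb * A * (Real.log u + Real.log fb) := by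
      have : ∀ x, u * (p x * ρ x * f x * Real.log (f x / fb)) =
          (u * f x * (p x * ρ x)) * (Real.log u + Real.log (f x)) -
          p x * (u * (ρ x * f x)) * (Real.log u + Real.log fb) := by
        intro x
        rcases (hf x).eq_or_lt with h | h
        · rw [← h]; simp
        · rw [Real.log_div h.ne' hfb.ne']; ring
      rw [Finset.mul_sum, Finset.sum_congr rfl fun x _ => this x, Finset.sum_sub_distrib,
        ← Finset.sum_mul, hB]
    have hClog : C * Real.log (C / A) = C * Real.log C - C * Real.log A := by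
      rcases hC0.eq_or_lt with h | h
      · rw [← h]; simp
      · rw [Real.log_div h.ne' hApos.ne']; ring
    have hBlog : Real.log (u * fb * A) = Real.log u + Real.log fb + Real.log A := by
      rw [Real.log_mul (by positivity) hApos.ne', Real.log_mul hu.ne' hfb.ne']
    rw [hL]
    simp only [ent]
    rw [hA, hB, hC]
    simp only [Real.negMulLog] at hsum ⊢
    rw [hClog] at hsum
    rw [hBlog]
    have hAC : A * Real.log A = C * Real.log A + u * fb * A * Real.log A := by
      rw [← hCdef]; ring
    linarith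

end Pool.Agent.Lib.P325s
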