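import Pool.Agent.Lib.P325s.SplitCut
import Pool.Agent.Lib.P325s.SplitEnt

/-!
P325s.LogSob: a part that cannot be improved by splitting satisfies a logarithmic Sobolev
inequality with constant `lam`, and hence a Nash type inequality.

PROOF. `logSob`: apply `hex` to `σ = u ρ f`, `τ = ρ (1 - u f)` for small `u > 0` (`f` is bounded,
`V` finite); `split_cut`, `split_ent` give
`u * lam * Ent ≤ u * Dir + C u ^ 2`; divide by `u` and let `u → 0`.
`nash`: the mass `m = ∑ p ρ` is positive. Let `G = ∑ p ρ g²`, `N = G / m`. If `G = 0` the left side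
is `0`. Otherwise apply `logSob` to `f = g²`, `fb = N` (`√(g²) = g`). As `log (g²/N) = 2 log g - log N` and
`log (g/N) ≥ 1 - N/g` for `g > 0`:
`∑ p ρ g² log (g²/N) = ∑ p ρ g² (2 log (g/N) + log N) ≥ ∑ p ρ (2 g² - 2 N g) + G log N
= 2 G - 2 N m + G log N = G log N`, using `∑ p ρ g = m`.
-/

open scoped BigOperators

namespace Pool.Agent.Lib.P325s

theorem logSob {V ι : Type} [Fintype V] [Fintype ι] (s t : ι → V) {w : ι → ℝ}
    (hw : ∀ e, 0 ≤ w e) {p ρ : V → ℝ} {lam : ℝ}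
    (hp : ∀ x, 0 ≤ p x) (hρ : ∀ x, 0 ≤ ρ x) (hlam : 0 ≤ lam)
    (hex : ∀ σ τ : V → ℝ, (∀ x, 0 ≤ σ x) → (∀ x, 0 ≤ τ x) → (∀ x, σ x + τ x = ρ x) →
      Psi s t w p lam ρ ≤ Psi s t w p lam σ + Psi s t w p lam τ)
    {f : V → ℝ} (hf : ∀ x, 0 ≤ f x) {fb : ℝ} (hfb : 0 < fb)
    (hmean : ∑ x, p x * ρ x * f x = fb * ∑ x, p x * ρ x) :
    lam * ∑ x, p x * ρ x * f x * Real.log (f x / fb) ≤
      ∑ e, w e * (√(ρ (s e) * ρ (t e)) * (√(f (s e)) - √(f (t e))) ^ 2) := by
  obtain ⟨C, hC, hcut⟩ := split_cut s t hw hρ hf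
  set D := ∑ e, w e * (√(ρ (s e) * ρ (t e)) * (√(f (s e)) - √(f (t e))) ^ 2) with hD
  set E := ∑ x, p x * ρ x * f x * Real.log (f x / fb) with hE
  set M : ℝ := ∑ x, f x + 1 with hM
  have hM0 : 0 < M := by
    have : 0 ≤ ∑ x, f x := Finset.sum_nonneg fun x _ => hf x
    linarith
  have hfM : ∀ x, f x ≤ M := by
    intro x
    have := Finset.single_le_sum (f := f) (fun y _ => hf y) (Finset.mem_univ x)
    linarith
  apply le_of_forall_pos_le_add
  intro ε hε
  set u : ℝ := min (1 / M) (ε / (C + 1)) with hu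
  have hu0 : 0 < u := lt_min (by positivity) (by positivity)
  have huM : u * M ≤ 1 := by
    have : u ≤ 1 / M := min_le_left _ _
    calc u * M ≤ 1 / M * M := mul_le_mul_of_nonneg_right this hM0.le
      _ = 1 := by field_simp
  have hCu : C * u ≤ ε := by
    have h1 : u ≤ ε / (C + 1) := min_le_right _ _
    have h2 : (C + 1) * u ≤ ε := by
      calc (C + 1) * u ≤ (C + 1) * (ε / (C + 1)) :=
            mul_le_mul_of_nonneg_left h1 (by linarith)
        _ = ε := by field_simp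
    nlinarith
  have huf : ∀ x, u * f x ≤ 1 := fun x =>
    (mul_le_mul_of_nonneg_left (hfM x) hu0.le).trans huM
  have h1 := hcut u hu0 huf
  have h2 := split_ent hp hρ hf hu0 huf hfb hmean
  have h3 := hex (fun x => u * (ρ x * f x)) (fun x => ρ x * (1 - u * f x))
    (fun x => mul_nonneg hu0.le (mul_nonneg (hρ x) (hf x)))
    (fun x => mul_nonneg (hρ x) (by linarith [huf x]))
    (fun x => by ring)
  unfold Psi at h3
  have h4 := mul_le_mul_of_nonneg_left h2 hlam
  have h5 : u * (lam * E) ≤ u * (D + ε) := by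
    have h6 : C * u ^ 2 ≤ u * ε := by nlinarith
    nlinarith
  exact le_of_mul_le_mul_left h5 hu0

theorem nash {V ι : Type} [Fintype V] [Fintype ι] (s t : ι → V) {w : ι → ℝ}
    (hw : ∀ e, 0 ≤ w e) {p ρ : V → ℝ} {lam : ℝ}
    (hp : ∀ x, 0 ≤ p x) (hρ : ∀ x, 0 ≤ ρ x) (hlam : 0 ≤ lam)
    (hex : ∀ σ τ : V → ℝ, (∀ x, 0 ≤ σ x) → (∀ x, 0 ≤ τ x) → (∀ x, σ x + τ x = ρ x) →
      Psi s t w p lam ρ ≤ Psi s t w p lam σ + Psi s t w p lam τ)
    (hm : 0 < ∑ x, p x * ρ x)
    {g : V → ℝ} (hg : ∀ x, 0 ≤ g x) (hmean : ∑ x, p x * ρ x * g x = ∑ x, p x * ρ x) :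
    lam * ((∑ x, p x * ρ x * g x ^ 2) *
        Real.log ((∑ x, p x * ρ x * g x ^ 2) / ∑ x, p x * ρ x)) ≤
      ∑ e, w e * (√(ρ (s e) * ρ (t e)) * (g (s e) - g (t e)) ^ 2) := by
  set m := ∑ x, p x * ρ x with hmdef
  set G := ∑ x, p x * ρ x * g x ^ 2 with hG
  have hG0 : 0 ≤ G := Finset.sum_nonneg fun x _ =>
    mul_nonneg (mul_nonneg (hp x) (hρ x)) (sq_nonneg _)
  rcases hG0.eq_or_lt with h0 | hGpos
  · rw [← h0, zero_mul, mul_zero]
    exact Finset.sum_nonneg fun e _ => mul_nonneg (hw e)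
      (mul_nonneg (Real.sqrt_nonneg _) (sq_nonneg _))
  · have hN : 0 < G / m := div_pos hGpos hm
    set N := G / m with hNdef
    have hNm : N * m = G := by rw [hNdef]; field_simp
    have h1 := logSob s t hw hp hρ hlam hex (f := fun x => g x ^ 2) (fun x => sq_nonneg _) hN
      (by rw [← hmdef, hNm])
    simp only [Real.sqrt_sq (hg _)] at h1
    refine le_trans (mul_le_mul_of_nonneg_left ?_ hlam) h1
    have h2 : ∀ x, p x * ρ x * (2 * g x ^ 2 - 2 * N * g x + g x ^ 2 * Real.log N) ≤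
        p x * ρ x * g x ^ 2 * Real.log (g x ^ 2 / N) := by
      intro x
      rw [mul_assoc (p x * ρ x)]
      apply mul_le_mul_of_nonneg_left _ (mul_nonneg (hp x) (hρ x))
      rcases (hg x).eq_or_lt with hx | hx
      · rw [← hx]; simp
      · have h3 : Real.log (g x ^ 2 / N) = 2 * Real.log (g x / N) + Real.log N := by
          rw [Real.log_div (by positivity) hN.ne', Real.log_div hx.ne' hN.ne', Real.log_pow]
          push_cast
          ring
        have h4 : 1 - (g x / N)⁻¹ ≤ Real.log (g x / N) :=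
          Real.one_sub_inv_le_log_of_pos (div_pos hx hN)
        rw [h3]
        have h5 : g x ^ 2 * (2 * (1 - (g x / N)⁻¹)) = 2 * g x ^ 2 - 2 * N * g x := by
          field_simp
        have h6 : g x ^ 2 * (2 * (1 - (g x / N)⁻¹)) ≤ g x ^ 2 * (2 * Real.log (g x / N)) :=
          mul_le_mul_of_nonneg_left (by linarith) (sq_nonneg _)
        rw [mul_add]
        linarith
    calc G * Real.log N = ∑ x, p x * ρ x * (2 * g x ^ 2 - 2 * N * g x + g x ^ 2 * Real.log N) := by
          have e1 : ∀ x, p x * ρ x * (2 * g x ^ 2 - 2 * N * g x + g x ^ 2 * Real.log N) =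
              (2 + Real.log N) * (p x * ρ x * g x ^ 2) - 2 * N * (p x * ρ x * g x) := by
            intro x; ring
          rw [Finset.sum_congr rfl fun x _ => e1 x, Finset.sum_sub_distrib, ← Finset.mul_sum,
            ← Finset.mul_sum, ← hG, hmean]
          have : 2 * N * m = 2 * G := by rw [mul_assoc, hNm]
          rw [this]
          ring
      _ ≤ ∑ x, p x * ρ x * g x ^ 2 * Real.log (g x ^ 2 / N) :=
          Finset.sum_le_sum fun x _ => h2 x

end Pool.Agent.Lib.P325s
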