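import Pool.Agent.Lib.P325s.Reduce

/-!
P325s.Minim: a continuous 1-homogeneous functional attains its minimum over the decompositions of a
function `θ ≥ 0` into nonnegative parts, and a minimiser cannot be improved by splitting a part.

PROOF. Let `N = |V| ≥ 1`. The set `K` of all `ρ : Fin N → V → ℝ` with `0 ≤ ρ i x` and
`∑ i, ρ i x = θ x` is compact (closed and contained in the box `0 ≤ ρ i x ≤ θ x`; `isCompact_univ_pi`,
`IsCompact.of_isClosed_subset`) and contains `ρ₀ = (θ, 0, ..., 0)`. `J ρ = ∑ i, Ψ (ρ i)` is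
continuous, so there is a minimiser (`IsCompact.exists_isMinOn`). `J ρ ≤ J ρ₀ = Ψ θ` as `Ψ 0 = 0`. If
`σ + τ = ρ i`, let `ρ''` be the family with `N + 1` parts in which the part `i` is replaced by `σ` and
`τ` (e.g. `Fin.cons τ (Function.update ρ i σ)`). By `reduce_parts` there is `ρ'` in `K` with
`J ρ ≤ J ρ' ≤ J ρ'' = J ρ - Ψ (ρ i) + Ψ σ + Ψ τ`.
-/

open scoped BigOperators

namespace Pool.Agent.Lib.P325s

theorem exists_extremal {V : Type} [Fintype V] [Nonempty V] (Ψ : (V → ℝ) → ℝ)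
    (hc : Continuous Ψ) (hh : ∀ c : ℝ, 0 ≤ c → ∀ σ : V → ℝ, Ψ (c • σ) = c * Ψ σ)
    (θ : V → ℝ) (hθ : ∀ x, 0 ≤ θ x) :
    ∃ (N : ℕ) (ρ : Fin N → V → ℝ), (∀ i x, 0 ≤ ρ i x) ∧ (∀ x, ∑ i, ρ i x = θ x) ∧
      ∑ i, Ψ (ρ i) ≤ Ψ θ ∧
      ∀ (i : Fin N) (σ τ : V → ℝ), (∀ x, 0 ≤ σ x) → (∀ x, 0 ≤ τ x) → (∀ x, σ x + τ x = ρ i x) →
        Ψ (ρ i) ≤ Ψ σ + Ψ τ := by
  classical
  have hNpos : 0 < Fintype.card V := Fintype.card_pos
  obtain ⟨N, hN⟩ : ∃ N, Fintype.card V = N := ⟨_, rfl⟩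
  rw [hN] at hNpos
  have hΨ0 : Ψ 0 = 0 := by
    have := hh 0 le_rfl 0
    simpa using this
  let K : Set (Fin N → V → ℝ) := {ρ | (∀ i x, 0 ≤ ρ i x) ∧ ∀ x, ∑ i, ρ i x = θ x}
  have hKclosed : IsClosed K := by
    have h1 : IsClosed {ρ : Fin N → V → ℝ | ∀ i x, 0 ≤ ρ i x} := by
      simp only [Set.ofPred_forall]
      exact isClosed_iInter fun i => isClosed_iInter fun x =>
        isClosed_le continuous_const (by fun_prop)
    have h2 : IsClosed {ρ : Fin N → V → ℝ | ∀ x, ∑ i, ρ i x = θ x} := by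
      simp only [Set.ofPred_forall]
      exact isClosed_iInter fun x => isClosed_eq (by fun_prop) continuous_const
    exact h1.inter h2
  have hbox : K ⊆ Set.pi Set.univ
      (fun _ : Fin N => Set.pi Set.univ (fun x : V => Set.Icc (0 : ℝ) (θ x))) := by
    rintro ρ ⟨h0, h1⟩ i - x -
    refine ⟨h0 i x, ?_⟩
    rw [← h1 x]
    exact Finset.single_le_sum (f := fun i => ρ i x) (fun j _ => h0 j x) (Finset.mem_univ i)
  have hKcomp : IsCompact K :=
    IsCompact.of_isClosed_subset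
      (isCompact_univ_pi fun _ => isCompact_univ_pi fun _ => isCompact_Icc) hKclosed hbox
  let i0 : Fin N := ⟨0, hNpos⟩
  let ρ0 : Fin N → V → ℝ := fun i => if i = i0 then θ else 0
  have hρ0 : ρ0 ∈ K := by
    refine ⟨fun i x => ?_, fun x => ?_⟩
    · by_cases h : i = i0
      · simp [ρ0, h, hθ x]
      · simp [ρ0, h]
    · have : ∀ i, ρ0 i x = if i = i0 then θ x else 0 := by
        intro i
        by_cases h : i = i0 <;> simp [ρ0, h]
      simp [this]
  have hJc : Continuous fun ρ : Fin N → V → ℝ => ∑ i, Ψ (ρ i) := by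
    refine continuous_finsetSum _ fun i _ => hc.comp (continuous_apply i)
  obtain ⟨ρ, hρK, hmin⟩ := hKcomp.exists_isMinOn ⟨ρ0, hρ0⟩ hJc.continuousOn
  have hmin' : ∀ ρ' ∈ K, ∑ i, Ψ (ρ i) ≤ ∑ i, Ψ (ρ' i) := fun ρ' h => hmin h
  refine ⟨N, ρ, hρK.1, hρK.2, ?_, ?_⟩
  · refine (hmin' ρ0 hρ0).trans (le_of_eq ?_)
    have : ∀ i, Ψ (ρ0 i) = if i = i0 then Ψ θ else 0 := by
      intro i
      by_cases h : i = i0 <;> simp [ρ0, h, hΨ0]
    simp [this]
  · intro i σ τ hσ hτ hst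
    let ρ2 : Fin (N + 1) → V → ℝ := Fin.cons τ (Function.update ρ i σ)
    have hρ2 : ∀ j x, 0 ≤ ρ2 j x := by
      intro j x
      refine Fin.cases ?_ (fun k => ?_) j
      · exact hτ x
      · simp only [ρ2, Fin.cons_succ]
        by_cases h : k = i
        · subst h; simpa using hσ x
        · simpa [Function.update_of_ne h] using hρK.1 k x
    obtain ⟨ρ', h0, h1, h2⟩ := reduce_parts Ψ hh (le_of_eq hN) ρ2 hρ2
    have hsumx : ∀ x, ∑ j, ρ2 j x = θ x := by
      intro x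
      rw [Fin.sum_univ_succ]
      simp only [ρ2, Fin.cons_zero, Fin.cons_succ]
      have e1 : ∑ k, Function.update ρ i σ k x = ∑ k, ρ k x - ρ i x + σ x := by
        rw [← Finset.add_sum_erase _ _ (Finset.mem_univ i),
          ← Finset.add_sum_erase _ (fun k => ρ k x) (Finset.mem_univ i)]
        simp only [Function.update_self]
        have : ∑ k ∈ Finset.univ.erase i, Function.update ρ i σ k x
            = ∑ k ∈ Finset.univ.erase i, ρ k x := by
          refine Finset.sum_congr rfl fun k hk => ?_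
          rw [Function.update_of_ne (Finset.ne_of_mem_erase hk)]
        rw [this]; ring
      rw [e1, hρK.2 x, ← hst x]; ring
    have hρ'K : ρ' ∈ K := ⟨h0, fun x => by rw [h1 x, hsumx x]⟩
    have h3 := (hmin' ρ' hρ'K).trans h2
    rw [Fin.sum_univ_succ] at h3
    simp only [ρ2, Fin.cons_zero, Fin.cons_succ] at h3
    have e2 : ∑ k, Ψ (Function.update ρ i σ k) = ∑ k, Ψ (ρ k) - Ψ (ρ i) + Ψ σ := by
      rw [← Finset.add_sum_erase _ _ (Finset.mem_univ i),
        ← Finset.add_sum_erase _ (fun k => Ψ (ρ k)) (Finset.mem_univ i)]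
      simp only [Function.update_self]
      have : ∑ k ∈ Finset.univ.erase i, Ψ (Function.update ρ i σ k)
          = ∑ k ∈ Finset.univ.erase i, Ψ (ρ k) := by
        refine Finset.sum_congr rfl fun k hk => ?_
        rw [Function.update_of_ne (Finset.ne_of_mem_erase hk)]
      rw [this]; ring
    rw [e2] at h3
    linarith

end Pool.Agent.Lib.P325s
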