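import Pool.Agent.Lib.P325s.FuncA
import Pool.Agent.Lib.P325s.Minim
import Pool.Agent.Lib.P325s.LogSob

/-!
P325s.Soft: the soft decomposition theorem.
-/

open scoped BigOperators

namespace Pool.Agent.Lib.P325s

/-- Soft decomposition: for every `lam ≥ 0` the function `θ ≥ 0` is a finite sum of nonnegative
functions `ρ i` (parts) of total Hellinger cost at most that of `θ` plus
`lam * (mass of θ) * log |V|`, such that every part satisfies a Nash type inequality with
constant `lam`. -/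
theorem soft_decomposition {V ι : Type} [Fintype V] [Nonempty V] [Fintype ι] (s t : ι → V)
    {w : ι → ℝ} (hw : ∀ e, 0 ≤ w e) {p : V → ℝ} (hp : ∀ x, 0 ≤ p x) {lam : ℝ} (hlam : 0 ≤ lam)
    (θ : V → ℝ) (hθ : ∀ x, 0 ≤ θ x) :
    ∃ (N : ℕ) (ρ : Fin N → V → ℝ), (∀ i x, 0 ≤ ρ i x) ∧ (∀ x, ∑ i, ρ i x = θ x) ∧
      ∑ i, cutEn s t w (ρ i) ≤
        cutEn s t w θ + lam * ((∑ x, p x * θ x) * Real.log (Fintype.card V)) ∧
      ∀ i, ∀ g : V → ℝ, (∀ x, 0 ≤ g x) → ∑ x, p x * ρ i x * g x = ∑ x, p x * ρ i x →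
        lam * ((∑ x, p x * ρ i x * g x ^ 2) *
          Real.log ((∑ x, p x * ρ i x * g x ^ 2) / ∑ x, p x * ρ i x)) ≤
        ∑ e, w e * (√(ρ i (s e) * ρ i (t e)) * (g (s e) - g (t e)) ^ 2) := by
  obtain ⟨N, ρ, h0, h1, h2, h3⟩ := exists_extremal (Psi s t w p lam) (continuous_Psi s t w p lam)
    (fun c hc σ => Psi_smul s t w p lam σ hc) θ hθ
  refine ⟨N, ρ, h0, h1, ?_, ?_⟩
  · have h4 : Psi s t w p lam θ ≤
        cutEn s t w θ + lam * ((∑ x, p x * θ x) * Real.log (Fintype.card V)) := by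
      unfold Psi
      have := mul_le_mul_of_nonneg_left (ent_le hp hθ) hlam
      linarith
    refine le_trans (le_trans (Finset.sum_le_sum fun i _ => ?_) h2) h4
    unfold Psi
    have := mul_nonneg hlam (ent_nonneg hp (h0 i))
    linarith
  · intro i g hg hmean
    rcases (Finset.sum_nonneg fun x _ => mul_nonneg (hp x) (h0 i x)).eq_or_lt with hm | hm
    · have hz : ∀ x, p x * ρ i x = 0 := by
        intro x
        exact (Finset.sum_eq_zero_iff_of_nonneg
          (fun x _ => mul_nonneg (hp x) (h0 i x))).1 hm.symm x (Finset.mem_univ x)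
      have : ∑ x, p x * ρ i x * g x ^ 2 = 0 := by
        simp [hz]
      rw [this]
      simp only [zero_mul, mul_zero]
      exact Finset.sum_nonneg fun e _ => mul_nonneg (hw e)
        (mul_nonneg (Real.sqrt_nonneg _) (sq_nonneg _))
    · exact nash s t hw hp (h0 i) hlam (h3 i) hm hg hmean

end Pool.Agent.Lib.P325s
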