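import Pool.Agent.Lib.P325s.WalkFacts

/-!
P325s.Decay: the Nash inequality bounds the traces of the powers of the walk matrix.

PROOF. Write `M = walk`, `A = lap` (symmetric, `M = 1 - c⁻¹ A`). All facts about `M` and `A` that are used
are in `WalkFacts`: entries of `M` are `≥ 0`, `∑ √μ (M h) = ∑ √μ h`,
`h ⬝ A h = ∑ e, w e * (g (s e) - g (t e))²` with `g x = h x / √(μ x)`, and `|A h|² ≤ lamMax * (h ⬝ A h)`.
Fix `x`, let `h_0 = δ_x / √(μ x)`, `h_(j+1) = M h_j`, `u_j = |h_j|²`. Then `h_j ≥ 0`,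
`∑ √μ h_j = 1`, hence `u_j ≥ 1` (Cauchy-Schwarz with `∑ μ = 1`), `u_0 = 1 / μ x`, and with `g = h_j / √μ`
(`∑ μ g = 1`, `∑ μ g² = u_j`) the hypothesis `hnash` gives `h_j ⬝ A h_j ≥ lam u_j log u_j`. So
`u_(j+1) = u_j - (2/c) h_j ⬝ A h_j + |A h_j|²/c² ≤ u_j - (2/c)(1 - lamMax/(2c)) h_j ⬝ A h_j ≤
u_j (1 - k log u_j)`, `k = (2 lam/c)(1 - lamMax/(2c)) ∈ [0, 1]`, and
`log u_(j+1) ≤ log u_j + log (1 - k log u_j) ≤ (1 - k) log u_j` (`1 - k log u_j > 0` because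
`u_(j+1) ≥ 1`). By induction `log u_J ≤ (1-k)^J log (1/μ x)`.
`M^(2J) x x = μ x * u_J` (`M^(2J) = (M^J)ᵀ M^J`, `M^J δ_x = √(μ x) h_J`). With `θ = (1-k)^J ∈ [0,1]`:
`trace = ∑ μ x * u_J ≤ ∑ (μ x)^(1-θ) ≤ |T|^θ` (concavity of `y ^ (1-θ)`, or Young's inequality
`μ^(1-θ) = μ^(1-θ) (1/|T|)^θ |T|^θ ≤ ((1-θ) μ + θ/|T|) |T|^θ`, `Real.geom_mean_le_arith_mean2_weighted`).
-/

open scoped BigOperators

namespace Pool.Agent.Lib.P325s

namespace DecayAux

open Matrix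

variable {T ι : Type} [Fintype T] [DecidableEq T] [Fintype ι]

/-- the vector after `j` steps -/
noncomputable def hv (μ : T → ℝ) (s t : ι → T) (w : ι → ℝ) (c : ℝ) (x : T) (j : ℕ) : T → ℝ :=
  (walk μ s t w c) ^ j *ᵥ Pi.single x (√(μ x))⁻¹

lemma hv_succ (μ : T → ℝ) (s t : ι → T) (w : ι → ℝ) (c : ℝ) (x : T) (j : ℕ) :
    hv μ s t w c x (j + 1) = walk μ s t w c *ᵥ hv μ s t w c x j := by
  unfold hv
  rw [pow_succ', ← Matrix.mulVec_mulVec]

lemma hv_nonneg (μ : T → ℝ) (s t : ι → T) (w : ι → ℝ) (hμ : ∀ x, 0 < μ x) (hw : ∀ e, 0 ≤ w e)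
    {c : ℝ} (hc0 : 0 < c) (hc : lamMax μ s t w ≤ c) (x : T) (j : ℕ) (y : T) :
    0 ≤ hv μ s t w c x j y := by
  induction j generalizing y with
  | zero =>
    unfold hv
    rw [pow_zero, Matrix.one_mulVec]
    by_cases h : y = x
    · subst h
      rw [Pi.single_eq_same]
      positivity
    · rw [Pi.single_eq_of_ne h]
  | succ j ih =>
    rw [hv_succ]
    unfold Matrix.mulVec dotProduct
    exact Finset.sum_nonneg fun z _ => mul_nonneg (walk_nonneg μ s t w hμ hw hc0 hc y z) (ih z)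

lemma sum_hv (μ : T → ℝ) (s t : ι → T) (w : ι → ℝ) (hμ : ∀ x, 0 < μ x)
    (c : ℝ) (x : T) (j : ℕ) :
    ∑ y, √(μ y) * hv μ s t w c x j y = 1 := by
  induction j with
  | zero =>
    unfold hv
    rw [pow_zero, Matrix.one_mulVec, Finset.sum_eq_single x]
    · rw [Pi.single_eq_same]
      exact mul_inv_cancel₀ (Real.sqrt_pos.mpr (hμ x)).ne'
    · intro y _ hy
      rw [Pi.single_eq_of_ne hy, mul_zero]
    · intro h
      exact absurd (Finset.mem_univ x) h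
  | succ j ih =>
    rw [hv_succ, sum_sqrt_walk μ s t w hμ c, ih]

lemma uv_ge_one (μ : T → ℝ) (s t : ι → T) (w : ι → ℝ) (hμ : ∀ x, 0 < μ x)
    (hμ1 : ∑ x, μ x = 1) (c : ℝ) (x : T) (j : ℕ) :
    1 ≤ hv μ s t w c x j ⬝ᵥ hv μ s t w c x j := by
  have h1 := Finset.sum_mul_sq_le_sq_mul_sq Finset.univ (fun y => √(μ y)) (hv μ s t w c x j)
  rw [sum_hv μ s t w hμ c x j] at h1
  have h2 : ∑ y, √(μ y) ^ 2 = 1 := by
    rw [← hμ1]
    exact Finset.sum_congr rfl fun y _ => Real.sq_sqrt (hμ y).le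
  rw [h2] at h1
  unfold dotProduct
  have h3 : ∑ y, hv μ s t w c x j y * hv μ s t w c x j y = ∑ y, hv μ s t w c x j y ^ 2 :=
    Finset.sum_congr rfl fun y _ => (sq _).symm
  rw [h3]
  linarith

lemma uv_zero (μ : T → ℝ) (s t : ι → T) (w : ι → ℝ) (hμ : ∀ x, 0 < μ x) (c : ℝ) (x : T) :
    hv μ s t w c x 0 ⬝ᵥ hv μ s t w c x 0 = (μ x)⁻¹ := by
  unfold hv
  rw [pow_zero, Matrix.one_mulVec, single_dotProduct, Pi.single_eq_same, ← mul_inv,
    Real.mul_self_sqrt (hμ x).le]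

lemma uv_step (μ : T → ℝ) (s t : ι → T) (w : ι → ℝ) (lam : ℝ)
    (hμ : ∀ x, 0 < μ x) (hw : ∀ e, 0 ≤ w e)
    (hnash : ∀ g : T → ℝ, (∀ x, 0 ≤ g x) → ∑ x, μ x * g x = 1 →
      lam * ((∑ x, μ x * g x ^ 2) * Real.log (∑ x, μ x * g x ^ 2)) ≤
        ∑ e, w e * (g (s e) - g (t e)) ^ 2)
    {c : ℝ} (hc0 : 0 < c) (hc : lamMax μ s t w ≤ c) (x : T) (j : ℕ) :
    hv μ s t w c x (j + 1) ⬝ᵥ hv μ s t w c x (j + 1) ≤
      (hv μ s t w c x j ⬝ᵥ hv μ s t w c x j) * (1 - (2 * lam / c * (1 - lamMax μ s t w / (2 * c)))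
        * Real.log (hv μ s t w c x j ⬝ᵥ hv μ s t w c x j)) := by
  set h := hv μ s t w c x j with hh
  set u := h ⬝ᵥ h with hu
  set E := h ⬝ᵥ (lap μ s t w *ᵥ h) with hE
  have h0 : ∀ y, 0 ≤ h y := hv_nonneg μ s t w hμ hw hc0 hc x j
  have hsq : ∀ y, √(μ y) ≠ 0 := fun y => (Real.sqrt_pos.mpr (hμ y)).ne'
  have hms : ∀ y, μ y = √(μ y) * √(μ y) := fun y => (Real.mul_self_sqrt (hμ y).le).symm
  -- the Nash inequality
  have hN := hnash (fun y => h y / √(μ y)) (fun y => div_nonneg (h0 y) (Real.sqrt_nonneg _)) (by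
    rw [← sum_hv μ s t w hμ c x j]
    refine Finset.sum_congr rfl fun y _ => ?_
    rw [← hh]
    have := hsq y
    calc μ y * (h y / √(μ y)) = √(μ y) * √(μ y) * (h y / √(μ y)) := by rw [← hms y]
      _ = √(μ y) * h y := by field_simp)
  have h2 : ∑ y, μ y * (h y / √(μ y)) ^ 2 = u := by
    rw [hu]
    unfold dotProduct
    refine Finset.sum_congr rfl fun y _ => ?_
    have := hsq y
    calc μ y * (h y / √(μ y)) ^ 2 = √(μ y) * √(μ y) * (h y / √(μ y)) ^ 2 := by rw [← hms y]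
      _ = h y * h y := by field_simp
  simp only [h2] at hN
  rw [← lap_quad μ s t w h, ← hE] at hN
  -- the step
  have h3 : hv μ s t w c x (j + 1) = h - c⁻¹ • (lap μ s t w *ᵥ h) := by
    rw [hv_succ, ← hh]
    unfold walk
    rw [Matrix.sub_mulVec, Matrix.one_mulVec, Matrix.smul_mulVec]
  have h4 : (h - c⁻¹ • (lap μ s t w *ᵥ h)) ⬝ᵥ (h - c⁻¹ • (lap μ s t w *ᵥ h)) =
      u - 2 * c⁻¹ * E + c⁻¹ * c⁻¹ * ((lap μ s t w *ᵥ h) ⬝ᵥ (lap μ s t w *ᵥ h)) := by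
    rw [sub_dotProduct, dotProduct_sub, dotProduct_sub, smul_dotProduct, smul_dotProduct,
      dotProduct_smul, dotProduct_smul, dotProduct_comm (lap μ s t w *ᵥ h) h]
    simp only [smul_eq_mul]
    rw [← hu, ← hE]
    ring
  have h5 := lap_sq_le μ s t w hμ hw h
  rw [← hE] at h5
  have hci : 0 < c⁻¹ := inv_pos.mpr hc0
  have h6 : c⁻¹ * c⁻¹ * ((lap μ s t w *ᵥ h) ⬝ᵥ (lap μ s t w *ᵥ h)) ≤
      c⁻¹ * c⁻¹ * (lamMax μ s t w * E) := mul_le_mul_of_nonneg_left h5 (by positivity)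
  have h7 : 0 ≤ 2 / c * (1 - lamMax μ s t w / (2 * c)) := by
    refine mul_nonneg (by positivity) ?_
    rw [sub_nonneg, div_le_one (by positivity)]
    linarith
  have h8 := mul_le_mul_of_nonneg_left hN h7
  rw [h3, h4]
  have h9 : u - 2 * c⁻¹ * E + c⁻¹ * c⁻¹ * (lamMax μ s t w * E) =
      u - 2 / c * (1 - lamMax μ s t w / (2 * c)) * E := by
    field_simp
    ring
  have h10 : u * (1 - (2 * lam / c * (1 - lamMax μ s t w / (2 * c))) * Real.log u) =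
      u - 2 / c * (1 - lamMax μ s t w / (2 * c)) * (lam * (u * Real.log u)) := by
    ring
  rw [h10]
  linarith

lemma trace_eq (μ : T → ℝ) (s t : ι → T) (w : ι → ℝ) (hμ : ∀ x, 0 < μ x) (c : ℝ) (J : ℕ) (x : T) :
    ((walk μ s t w c) ^ (2 * J)) x x = μ x * (hv μ s t w c x J ⬝ᵥ hv μ s t w c x J) := by
  have hsym : ((walk μ s t w c) ^ J).IsSymm := by
    unfold Matrix.IsSymm
    rw [Matrix.transpose_pow, walk_isSymm μ s t w c]
  have h1 : ∀ y, hv μ s t w c x J y = ((walk μ s t w c) ^ J) y x * (√(μ x))⁻¹ := by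
    intro y
    unfold hv
    rw [Matrix.mulVec_single]
    simp [mul_comm]
  have h2 : √(μ x) * √(μ x) = μ x := Real.mul_self_sqrt (hμ x).le
  have h3 : √(μ x) ≠ 0 := (Real.sqrt_pos.mpr (hμ x)).ne'
  rw [two_mul, pow_add, Matrix.mul_apply]
  unfold dotProduct
  rw [Finset.mul_sum]
  refine Finset.sum_congr rfl fun y _ => ?_
  rw [h1 y, ← hsym.apply x y]
  calc ((walk μ s t w c) ^ J) y x * ((walk μ s t w c) ^ J) y x =
      (√(μ x) * (√(μ x))⁻¹) * (√(μ x) * (√(μ x))⁻¹) *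
        (((walk μ s t w c) ^ J) y x * ((walk μ s t w c) ^ J) y x) := by
          rw [mul_inv_cancel₀ h3]; ring
    _ = √(μ x) * √(μ x) * ((((walk μ s t w c) ^ J) y x * (√(μ x))⁻¹) *
        (((walk μ s t w c) ^ J) y x * (√(μ x))⁻¹)) := by ring
    _ = _ := by rw [h2]

end DecayAux

open DecayAux in
theorem trace_walk_le {T ι : Type} [Fintype T] [DecidableEq T] [Nonempty T] [Fintype ι]
    (μ : T → ℝ) (s t : ι → T) (w : ι → ℝ) (lam : ℝ)
    (hμ : ∀ x, 0 < μ x) (hμ1 : ∑ x, μ x = 1) (hw : ∀ e, 0 ≤ w e) (hlam : 0 ≤ lam)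
    (hnash : ∀ g : T → ℝ, (∀ x, 0 ≤ g x) → ∑ x, μ x * g x = 1 →
      lam * ((∑ x, μ x * g x ^ 2) * Real.log (∑ x, μ x * g x ^ 2)) ≤
        ∑ e, w e * (g (s e) - g (t e)) ^ 2)
    {c : ℝ} (hc0 : 0 < c) (hc : lamMax μ s t w ≤ c) (hc2 : 2 * lam ≤ c) (J : ℕ) :
    ((walk μ s t w c) ^ (2 * J)).trace ≤
      (Fintype.card T : ℝ) ^ ((1 - 2 * lam / c * (1 - lamMax μ s t w / (2 * c))) ^ J : ℝ) := by
  set k : ℝ := 2 * lam / c * (1 - lamMax μ s t w / (2 * c)) with hk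
  have hlm : 0 ≤ lamMax μ s t w := by
    unfold lamMax
    exact Finset.sum_nonneg fun e _ => mul_nonneg (hw e)
      (add_nonneg (inv_nonneg.mpr (hμ _).le) (inv_nonneg.mpr (hμ _).le))
  have ha0 : 0 ≤ 1 - lamMax μ s t w / (2 * c) := by
    rw [sub_nonneg, div_le_one (by positivity)]
    linarith
  have ha1 : 1 - lamMax μ s t w / (2 * c) ≤ 1 := by
    have : 0 ≤ lamMax μ s t w / (2 * c) := by positivity
    linarith
  have hb0 : 0 ≤ 2 * lam / c := by positivity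
  have hb1 : 2 * lam / c ≤ 1 := by
    rw [div_le_one hc0]
    exact hc2
  have hk0 : 0 ≤ k := mul_nonneg hb0 ha0
  have hk1 : k ≤ 1 := by
    calc k ≤ 1 * 1 := mul_le_mul hb1 ha1 ha0 zero_le_one
      _ = 1 := one_mul 1
  set θ : ℝ := (1 - k) ^ J with hθ
  have hθ0 : 0 ≤ θ := pow_nonneg (by linarith) _
  have hθ1 : θ ≤ 1 := pow_le_one₀ (by linarith) (by linarith)
  -- the logarithms
  have hlog : ∀ x, ∀ j, Real.log (hv μ s t w c x j ⬝ᵥ hv μ s t w c x j) ≤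
      (1 - k) ^ j * Real.log ((μ x)⁻¹) := by
    intro x j
    induction j with
    | zero => rw [uv_zero μ s t w hμ c x, pow_zero, one_mul]
    | succ j ih =>
      set u := hv μ s t w c x j ⬝ᵥ hv μ s t w c x j with hu
      set u' := hv μ s t w c x (j + 1) ⬝ᵥ hv μ s t w c x (j + 1) with hu'
      have h1 : 1 ≤ u := uv_ge_one μ s t w hμ hμ1 c x j
      have h2 : 1 ≤ u' := uv_ge_one μ s t w hμ hμ1 c x (j + 1)
      have h3 : u' ≤ u * (1 - k * Real.log u) := uv_step μ s t w lam hμ hw hnash hc0 hc x j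
      have h4 : 1 - k * Real.log u ≤ Real.exp (-(k * Real.log u)) := by
        have := Real.add_one_le_exp (-(k * Real.log u))
        linarith
      have h5 : u' ≤ u * Real.exp (-(k * Real.log u)) :=
        h3.trans (mul_le_mul_of_nonneg_left h4 (by linarith))
      have h6 : Real.log u' ≤ Real.log u + -(k * Real.log u) := by
        rw [← Real.log_exp (-(k * Real.log u)), ← Real.log_mul (by linarith)
          (Real.exp_pos _).ne']
        exact Real.log_le_log (by linarith) h5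
      have h7 : Real.log u + -(k * Real.log u) = (1 - k) * Real.log u := by ring
      rw [h7] at h6
      refine h6.trans ?_
      rw [pow_succ' (1 - k) j, mul_assoc]
      exact mul_le_mul_of_nonneg_left ih (by linarith)
  -- the diagonal entries
  have hdiag : ∀ x, ((walk μ s t w c) ^ (2 * J)) x x ≤ μ x ^ (1 - θ) := by
    intro x
    rw [trace_eq μ s t w hμ c J x]
    have h1 : 1 ≤ hv μ s t w c x J ⬝ᵥ hv μ s t w c x J := uv_ge_one μ s t w hμ hμ1 c x J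
    have h2 := hlog x J
    rw [← hθ] at h2
    have h3 : hv μ s t w c x J ⬝ᵥ hv μ s t w c x J ≤ μ x ^ (-θ) := by
      rw [Real.rpow_def_of_pos (hμ x), ← Real.log_le_iff_le_exp (by linarith)]
      refine h2.trans (le_of_eq ?_)
      rw [Real.log_inv]
      ring
    calc μ x * (hv μ s t w c x J ⬝ᵥ hv μ s t w c x J) ≤ μ x * μ x ^ (-θ) :=
          mul_le_mul_of_nonneg_left h3 (hμ x).le
      _ = μ x ^ (1 - θ) := by
          rw [show (1 : ℝ) - θ = 1 + -θ by ring, Real.rpow_add (hμ x), Real.rpow_one]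
  have hN : (0 : ℝ) < Fintype.card T := by exact_mod_cast Fintype.card_pos
  have hsum : ∑ x, μ x ^ (1 - θ) * ((Fintype.card T : ℝ)⁻¹) ^ θ ≤ 1 := by
    calc ∑ x, μ x ^ (1 - θ) * ((Fintype.card T : ℝ)⁻¹) ^ θ
        ≤ ∑ x, ((1 - θ) * μ x + θ * (Fintype.card T : ℝ)⁻¹) :=
          Finset.sum_le_sum fun x _ => Real.geom_mean_le_arith_mean2_weighted (by linarith) hθ0
            (hμ x).le (inv_nonneg.mpr hN.le) (by ring)
      _ = 1 := by
          rw [Finset.sum_add_distrib, ← Finset.mul_sum, hμ1, Finset.sum_const, Finset.card_univ,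
            nsmul_eq_mul]
          have : (Fintype.card T : ℝ) ≠ 0 := hN.ne'
          field_simp
          ring
  rw [← Finset.sum_mul, Real.inv_rpow hN.le, ← div_eq_mul_inv, div_le_one
    (Real.rpow_pos_of_pos hN _)] at hsum
  refine le_trans ?_ hsum
  unfold Matrix.trace
  exact Finset.sum_le_sum fun x _ => hdiag x

end Pool.Agent.Lib.P325s
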