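import Pool.Agent.Lib.P325s.MatDefs

/-!
P325s.LiftWalk: the walk matrix of the lift is nonnegative and lies over the walk matrix.

PROOF. (1) Entries: for `p ≠ q` every product `bvL e a p * bvL e a q ≤ 0` (the two `if` terms of
`bvL e a` are supported at one point each, so at different points the product is `0` or
`- 1/√(μμ)`), hence `walkL p q = - c⁻¹ lapL p q ≥ 0`; on the diagonal
`∑ a, bvL e a p ^ 2 ≤ (if s e = p.1 then (μ p.1)⁻¹ else 0) + (if t e = p.1 then (μ p.1)⁻¹ else 0)`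
(`(y - z)² ≤ y² + z²` for `y, z ≥ 0`; exactly one `a` with `a = p.2`, one with `σ e a = p.2`), so
`lapL p p ≤ lamMax ≤ c`.
(2) `∑ b, walkL (x, a) (y, b) = walk x y`: `∑ b, bvL e a' (y, b) = bv e y` for every `a'`, and
`∑ a', bvL e a' (x, a) = bv e x` as `σ e` is a bijection; for the identity matrix
`∑ b, 1 (x, a) (y, b) = 1 x y`.
(3) Symmetry is clear from the definitions.
(4) `bilin_lapL`: for every kernel `X` on `T × L` and every `C` with
`X p q = √(μ p.1) * √(μ q.1) * C p q`, `C` symmetric, the trace of `X * lapL` is `kEnergy` : for one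
lifted edge `∑ p q, X p q * bvL e a p * bvL e a q = C (s,a) (s,a) + C (t,σa) (t,σa) - 2 C (s,a) (t,σa)`
(the factors `√μ` cancel).
-/

open scoped BigOperators

namespace Pool.Agent.Lib.P325s

namespace LiftWalkAux

variable {T ι L : Type}

lemma A_iff [DecidableEq T] [DecidableEq L] (x : T) (a : L) (p : T × L) :
    (x = p.1 ∧ a = p.2) ↔ (x, a) = p := by
  constructor
  · rintro ⟨h1, h2⟩
    exact Prod.ext h1 h2
  · rintro rfl
    exact ⟨rfl, rfl⟩

lemma bvL_eq [DecidableEq T] [DecidableEq L] (μ : T → ℝ) (s t : ι → T) (σ : ι → Equiv.Perm L)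
    (e : ι) (a : L) (p : T × L) : bvL μ s t σ e a p =
      (if (s e, a) = p then (√(μ p.1))⁻¹ else 0) -
        (if (t e, σ e a) = p then (√(μ p.1))⁻¹ else 0) := by
  unfold bvL
  simp only [A_iff]

lemma sum_bvL [Fintype T] [DecidableEq T] [DecidableEq L] [Fintype L] (μ : T → ℝ) (s t : ι → T)
    (σ : ι → Equiv.Perm L) (e : ι) (a : L) (f : T × L → ℝ) :
    ∑ p, f p * bvL μ s t σ e a p =
      f (s e, a) * (√(μ (s e)))⁻¹ - f (t e, σ e a) * (√(μ (t e)))⁻¹ := by
  simp only [bvL_eq, mul_sub, Finset.sum_sub_distrib, mul_ite, mul_zero, Finset.sum_ite_eq,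
    Finset.mem_univ, if_true]

lemma sum_b [DecidableEq T] [DecidableEq L] [Fintype L] (μ : T → ℝ) (s t : ι → T)
    (σ : ι → Equiv.Perm L) (e : ι) (a : L) (y : T) :
    ∑ b, bvL μ s t σ e a (y, b) = bv μ s t e y := by
  unfold bvL bv
  simp only [Finset.sum_sub_distrib, ite_and]
  congr 1
  · split_ifs with h
    · simp
    · simp
  · split_ifs with h
    · simp
    · simp

lemma sum_a [DecidableEq T] [DecidableEq L] [Fintype L] (μ : T → ℝ) (s t : ι → T)
    (σ : ι → Equiv.Perm L) (e : ι) (x : T) (b : L) :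
    ∑ a, bvL μ s t σ e a (x, b) = bv μ s t e x := by
  unfold bvL bv
  simp only [Finset.sum_sub_distrib, ite_and]
  congr 1
  · split_ifs with h
    · simp
    · simp
  · split_ifs with h
    · rw [← Equiv.sum_comp (σ e).symm]
      simp
    · simp

lemma off [DecidableEq T] [DecidableEq L] (μ : T → ℝ) (s t : ι → T) (σ : ι → Equiv.Perm L)
    (e : ι) (a : L) (p q : T × L) (h : p ≠ q) :
    bvL μ s t σ e a p * bvL μ s t σ e a q ≤ 0 := by
  rw [bvL_eq, bvL_eq]
  have hp : 0 ≤ (√(μ p.1))⁻¹ := inv_nonneg.2 (Real.sqrt_nonneg _)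
  have hq : 0 ≤ (√(μ q.1))⁻¹ := inv_nonneg.2 (Real.sqrt_nonneg _)
  have hpq := mul_nonneg hp hq
  by_cases h1 : (s e, a) = p
  · have h2 : (s e, a) ≠ q := fun h3 => h (h1.symm.trans h3)
    rw [if_pos h1, if_neg h2]
    split_ifs with h3 h4 h4
    · exact absurd (h3.symm.trans h4) h
    · simp
    · nlinarith
    · simp
  · rw [if_neg h1]
    split_ifs with h3 h4 h5 h5 h6
    all_goals first
      | exact absurd (h3.symm.trans h5) h
      | nlinarith
      | (simp; done)
      | (simp; exact hpq)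

lemma sq_ite (P Q : Prop) [Decidable P] [Decidable Q] {r : ℝ} (hr : 0 ≤ r) :
    ((if P then r else 0) - (if Q then r else 0)) * ((if P then r else 0) - (if Q then r else 0)) ≤
      (if P then r * r else 0) + (if Q then r * r else 0) := by
  split_ifs <;> nlinarith [mul_nonneg hr hr]

lemma diag [DecidableEq T] [DecidableEq L] [Fintype L] (μ : T → ℝ) (s t : ι → T)
    (σ : ι → Equiv.Perm L) (hμ : ∀ x, 0 < μ x) (e : ι) (p : T × L) :
    ∑ a, bvL μ s t σ e a p * bvL μ s t σ e a p ≤ (μ (s e))⁻¹ + (μ (t e))⁻¹ := by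
  obtain ⟨x, b⟩ := p
  have hs := Real.mul_self_sqrt (hμ x).le
  have hinv : (√(μ x))⁻¹ * (√(μ x))⁻¹ = (μ x)⁻¹ := by rw [← mul_inv, hs]
  have h0 : 0 ≤ (√(μ x))⁻¹ := inv_nonneg.2 (Real.sqrt_nonneg _)
  have h1 : ∀ a, bvL μ s t σ e a (x, b) * bvL μ s t σ e a (x, b) ≤
      (if s e = x then (if a = b then (μ x)⁻¹ else 0) else 0) +
        (if t e = x then (if σ e a = b then (μ x)⁻¹ else 0) else 0) := by
    intro a
    unfold bvL
    have h2 := sq_ite (s e = x ∧ a = b) (t e = x ∧ σ e a = b) h0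
    rw [hinv] at h2
    simpa only [ite_and] using h2
  refine (Finset.sum_le_sum fun a _ => h1 a).trans ?_
  rw [Finset.sum_add_distrib]
  refine add_le_add ?_ ?_
  · split_ifs with h
    · rw [h]
      simp
    · rw [Finset.sum_const_zero]
      exact inv_nonneg.2 (hμ _).le
  · split_ifs with h
    · rw [h, ← Equiv.sum_comp (σ e).symm]
      simp
    · rw [Finset.sum_const_zero]
      exact inv_nonneg.2 (hμ _).le

end LiftWalkAux

open LiftWalkAux

theorem walkL_nonneg {T ι L : Type} [Fintype T] [DecidableEq T] [DecidableEq L] [Fintype ι]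
    [Fintype L] (μ : T → ℝ) (s t : ι → T) (σ : ι → Equiv.Perm L) (w : ι → ℝ)
    (hμ : ∀ x, 0 < μ x) (hw : ∀ e, 0 ≤ w e) {c : ℝ} (hc0 : 0 < c) (hc : lamMax μ s t w ≤ c)
    (p q : T × L) : 0 ≤ walkL μ s t σ w c p q := by
  have hci : 0 ≤ c⁻¹ := inv_nonneg.2 hc0.le
  unfold walkL
  rw [Matrix.sub_apply, Matrix.smul_apply, smul_eq_mul]
  by_cases h : p = q
  · subst h
    rw [Matrix.one_apply_eq]
    have h1 : lapL μ s t σ w p p ≤ c := by
      refine le_trans ?_ hc
      unfold lapL lamMax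
      exact Finset.sum_le_sum fun e _ => mul_le_mul_of_nonneg_left (diag μ s t σ hμ e p) (hw e)
    have h2 : c⁻¹ * lapL μ s t σ w p p ≤ c⁻¹ * c := mul_le_mul_of_nonneg_left h1 hci
    rw [inv_mul_cancel₀ hc0.ne'] at h2
    linarith
  · rw [Matrix.one_apply_ne h, zero_sub, neg_nonneg]
    refine mul_nonpos_of_nonneg_of_nonpos hci ?_
    unfold lapL
    refine Finset.sum_nonpos fun e _ => mul_nonpos_of_nonneg_of_nonpos (hw e) ?_
    exact Finset.sum_nonpos fun a _ => off μ s t σ e a p q h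

theorem walkL_row {T ι L : Type} [Fintype T] [DecidableEq T] [DecidableEq L] [Fintype ι]
    [Fintype L] (μ : T → ℝ) (s t : ι → T) (σ : ι → Equiv.Perm L) (w : ι → ℝ) (c : ℝ)
    (x : T) (a : L) (y : T) : ∑ b, walkL μ s t σ w c (x, a) (y, b) = walk μ s t w c x y := by
  unfold walkL walk
  simp only [Matrix.sub_apply, Matrix.smul_apply, smul_eq_mul, Finset.sum_sub_distrib]
  congr 1
  · simp only [Matrix.one_apply, Prod.mk.injEq, ite_and]
    split_ifs with h
    · simp
    · simp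
  · rw [← Finset.mul_sum]
    congr 1
    unfold lapL lap
    rw [Finset.sum_comm]
    refine Finset.sum_congr rfl fun e _ => ?_
    rw [← Finset.mul_sum, Finset.sum_comm]
    congr 1
    have h1 : ∀ a', ∑ b, bvL μ s t σ e a' (x, a) * bvL μ s t σ e a' (y, b) =
        bvL μ s t σ e a' (x, a) * bv μ s t e y := by
      intro a'
      rw [← Finset.mul_sum, sum_b]
    rw [Finset.sum_congr rfl fun a' _ => h1 a', ← Finset.sum_mul, sum_a]

theorem walkL_isSymm {T ι L : Type} [DecidableEq T] [DecidableEq L] [Fintype ι]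
    [Fintype L] (μ : T → ℝ) (s t : ι → T) (σ : ι → Equiv.Perm L) (w : ι → ℝ) (c : ℝ) :
    (walkL μ s t σ w c).IsSymm := by
  unfold walkL
  refine Matrix.IsSymm.sub Matrix.isSymm_one (Matrix.IsSymm.smul ?_ _)
  ext p q
  rw [Matrix.transpose_apply]
  unfold lapL
  refine Finset.sum_congr rfl fun e _ => ?_
  congr 1
  exact Finset.sum_congr rfl fun a _ => mul_comm _ _

theorem trace_mul_lapL {T ι L : Type} [Fintype T] [DecidableEq T] [DecidableEq L] [Fintype ι]
    [Fintype L] (μ : T → ℝ) (s t : ι → T) (σ : ι → Equiv.Perm L) (w : ι → ℝ)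
    (hμ : ∀ x, 0 < μ x) (C : T × L → T × L → ℝ) (hsym : ∀ p q, C p q = C q p)
    (X : Matrix (T × L) (T × L) ℝ) (hX : ∀ p q, X p q = √(μ p.1) * √(μ q.1) * C p q) :
    (X * lapL μ s t σ w).trace = kEnergy s t σ w C := by
  have h1 : (X * lapL μ s t σ w).trace =
      ∑ e, w e * ∑ a, ∑ p, (∑ q, X p q * bvL μ s t σ e a q) * bvL μ s t σ e a p := by
    unfold Matrix.trace
    simp only [Matrix.diag_apply, Matrix.mul_apply, lapL, Finset.mul_sum, Finset.sum_mul]
    calc ∑ p, ∑ q, ∑ e, ∑ a, X p q * (w e * (bvL μ s t σ e a q * bvL μ s t σ e a p))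
        = ∑ p, ∑ e, ∑ q, ∑ a, X p q * (w e * (bvL μ s t σ e a q * bvL μ s t σ e a p)) :=
          Finset.sum_congr rfl fun p _ => Finset.sum_comm
      _ = ∑ e, ∑ p, ∑ q, ∑ a, X p q * (w e * (bvL μ s t σ e a q * bvL μ s t σ e a p)) :=
          Finset.sum_comm
      _ = ∑ e, ∑ p, ∑ a, ∑ q, X p q * (w e * (bvL μ s t σ e a q * bvL μ s t σ e a p)) :=
          Finset.sum_congr rfl fun e _ => Finset.sum_congr rfl fun p _ => Finset.sum_comm
      _ = ∑ e, ∑ a, ∑ p, ∑ q, X p q * (w e * (bvL μ s t σ e a q * bvL μ s t σ e a p)) :=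
          Finset.sum_congr rfl fun e _ => Finset.sum_comm
      _ = _ := by
          refine Finset.sum_congr rfl fun e _ => Finset.sum_congr rfl fun a _ =>
            Finset.sum_congr rfl fun p _ => Finset.sum_congr rfl fun q _ => ?_
          ring
  rw [h1]
  unfold kEnergy
  refine Finset.sum_congr rfl fun e _ => ?_
  congr 1
  refine Finset.sum_congr rfl fun a _ => ?_
  rw [sum_bvL, sum_bvL, sum_bvL, hX, hX, hX, hX]
  have e1 : √(μ (s e)) * (√(μ (s e)))⁻¹ = 1 :=
    mul_inv_cancel₀ (Real.sqrt_pos.2 (hμ _)).ne'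
  have e2 : √(μ (t e)) * (√(μ (t e)))⁻¹ = 1 :=
    mul_inv_cancel₀ (Real.sqrt_pos.2 (hμ _)).ne'
  have e3 := hsym (t e, σ e a) (s e, a)
  simp only
  rw [e3]
  generalize √(μ (s e)) = α at e1 ⊢
  generalize √(μ (t e)) = β at e2 ⊢
  generalize (α)⁻¹ = α' at e1 ⊢
  generalize (β)⁻¹ = β' at e2 ⊢
  generalize C (s e, a) (s e, a) = c1
  generalize C (t e, σ e a) (t e, σ e a) = c2
  generalize C (s e, a) (t e, σ e a) = c3
  have : (α * α * c1 * α' - α * β * c3 * β') * α' - (β * α * c3 * α' - β * β * c2 * β') * β' =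
      (α * α') * (α * α') * c1 + (β * β') * (β * β') * c2 - 2 * ((α * α') * (β * β')) * c3 := by
    ring
  rw [this, e1, e2]
  ring

end Pool.Agent.Lib.P325s
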