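import Pool.Agent.Lib.P325s.MatDefs
import Pool.Agent.Lib.P325s.Moment
import Pool.Agent.Lib.P325s.LiftPow
import Pool.Agent.Lib.P325s.LiftWalk
import Pool.Agent.Lib.P325s.Decay

/-!
P325s.Kern: a positive semidefinite kernel of small energy on the lift has a large mean square.

PROOF. Let `Φ = kMass`, `X p q = √(μ p.1) * √(μ q.1) * C p q` (a positive semidefinite matrix, `trace X = Φ`,
`∑ p q, X p q ^ 2 / κ q = kCorr`), `M = walkL c`, `trace (X * M) = Φ - kEnergy / c` (`trace_mul_lapL`).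
`pre_bound`: for `J = 2^q`, `moment_pow`, `frob`, `lift_pow` (with `walkL_nonneg`, `walkL_row`),
`trace_walk_le` give `(Φ (1 - kEnergy/(c Φ))^J)² ≤ (trace (X M^J))² ≤ kCorr * ∑ q, κ q * (M^(2J)) q q ≤
kCorr * trace (walk^(2J)) ≤ kCorr * |T|^θ`.
`kern_bound`, `T0 > 0`: take `c = 2^q / T0` and let `q → ∞`: `(1 - En T0/(J Φ))^(2J) → exp (-2 T0 En/Φ)`
and `(1 - (2 lam T0/J)(1 - lamMax T0/(2J)))^J → exp (-2 lam T0)`
(`Real.tendsto_one_add_pow_exp_of_tendsto` composed with `q ↦ 2^q`; continuity of `y ↦ |T|^y`),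
`le_of_tendsto_of_tendsto`. For large `q` the conditions `lamMax ≤ c`, `2 lam ≤ c`, `En ≤ c Φ` hold.
`T0 = 0`: `frob` with `J = 0`: `Φ² ≤ kCorr * ∑ q, κ q = kCorr * |T|`.
-/

open scoped BigOperators

namespace Pool.Agent.Lib.P325s

namespace KernAux

private noncomputable def XX {T L : Type} (μ : T → ℝ) (C : T × L → T × L → ℝ) :
    Matrix (T × L) (T × L) ℝ :=
  fun p q => √(μ p.1) * √(μ q.1) * C p q

private theorem XX_psd {T L : Type} [Fintype T] [Fintype L] (μ : T → ℝ)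
    (C : T × L → T × L → ℝ) (hsym : ∀ p q, C p q = C q p)
    (hpsd : ∀ c : T × L → ℝ, 0 ≤ ∑ p, ∑ q, c p * c q * C p q) : (XX μ C).PosSemidef := by
  refine Matrix.PosSemidef.of_dotProduct_mulVec_nonneg ?_ fun z => ?_
  · ext p q
    simp only [XX, Matrix.conjTranspose_apply, star_trivial]
    rw [hsym q p]
    ring
  · have h := hpsd (fun p => √(μ p.1) * z p)
    refine le_of_le_of_eq h ?_
    simp only [dotProduct, Matrix.mulVec, XX, star_trivial, Pi.star_apply, Finset.mul_sum]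
    exact Finset.sum_congr rfl fun p _ => Finset.sum_congr rfl fun q _ => by ring

private theorem XX_trace {T L : Type} [Fintype T] [Fintype L] (μ : T → ℝ)
    (hμ : ∀ x, 0 < μ x) (C : T × L → T × L → ℝ) : (XX μ C).trace = kMass μ C := by
  unfold Matrix.trace kMass
  rw [Fintype.sum_prod_type]
  refine Finset.sum_congr rfl fun x _ => ?_
  rw [Finset.mul_sum]
  refine Finset.sum_congr rfl fun a _ => ?_
  rw [Matrix.diag_apply]
  show √(μ x) * √(μ x) * C (x, a) (x, a) = _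
  rw [Real.mul_self_sqrt (hμ x).le]

private theorem XX_corr {T L : Type} [Fintype T] [Fintype L] (μ : T → ℝ)
    (hμ : ∀ x, 0 < μ x) (C : T × L → T × L → ℝ) (κ : T × L → ℝ) :
    ∑ p, ∑ q, XX μ C p q ^ 2 / κ q = kCorr μ κ C := by
  unfold kCorr
  rw [Fintype.sum_prod_type]
  refine Finset.sum_congr rfl fun x _ => ?_
  simp only [Fintype.sum_prod_type]
  rw [Finset.sum_comm]
  refine Finset.sum_congr rfl fun y _ => ?_
  simp only [Finset.mul_sum]
  refine Finset.sum_congr rfl fun a _ => Finset.sum_congr rfl fun b _ => ?_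
  show (√(μ x) * √(μ y) * C (x, a) (y, b)) ^ 2 / κ (y, b) = _
  rw [mul_pow, mul_pow, Real.sq_sqrt (hμ x).le, Real.sq_sqrt (hμ y).le]
  ring

end KernAux

theorem pre_bound {T ι L : Type} [Fintype T] [DecidableEq T] [Nonempty T] [Fintype ι]
    [Fintype L] [DecidableEq L]
    (μ : T → ℝ) (s t : ι → T) (σ : ι → Equiv.Perm L) (w : ι → ℝ) (lam : ℝ)
    (hμ : ∀ x, 0 < μ x) (hμ1 : ∑ x, μ x = 1) (hw : ∀ e, 0 ≤ w e) (hlam : 0 ≤ lam)
    (hnash : ∀ g : T → ℝ, (∀ x, 0 ≤ g x) → ∑ x, μ x * g x = 1 →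
      lam * ((∑ x, μ x * g x ^ 2) * Real.log (∑ x, μ x * g x ^ 2)) ≤
        ∑ e, w e * (g (s e) - g (t e)) ^ 2)
    (C : T × L → T × L → ℝ) (hsym : ∀ p q, C p q = C q p)
    (hpsd : ∀ c : T × L → ℝ, 0 ≤ ∑ p, ∑ q, c p * c q * C p q) (hΦ : 0 < kMass μ C)
    {κ : T × L → ℝ} (hκ0 : ∀ q, 0 ≤ κ q) (hκ1 : ∀ x, ∑ a, κ (x, a) = 1)
    (hκC : ∀ p q, κ q = 0 → C p q = 0)
    {c : ℝ} (hc0 : 0 < c) (hc : lamMax μ s t w ≤ c) (hc2 : 2 * lam ≤ c)
    (hc3 : kEnergy s t σ w C ≤ c * kMass μ C) (q : ℕ) :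
    (kMass μ C * (1 - kEnergy s t σ w C / (c * kMass μ C)) ^ (2 ^ q)) ^ 2 ≤
      kCorr μ κ C * (Fintype.card T : ℝ) ^
        ((1 - 2 * lam / c * (1 - lamMax μ s t w / (2 * c))) ^ (2 ^ q) : ℝ) := by
  have hX := KernAux.XX_psd μ C hsym hpsd
  have htr := KernAux.XX_trace μ hμ C
  have hcorr := KernAux.XX_corr μ hμ C κ
  have hM := walkL_isSymm μ s t σ w c
  have hlap := trace_mul_lapL μ s t σ w hμ C hsym (KernAux.XX μ C) (fun _ _ => rfl)
  have hXM : (KernAux.XX μ C * walkL μ s t σ w c).trace =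
      kMass μ C - kEnergy s t σ w C / c := by
    unfold walkL
    rw [Matrix.mul_sub, Matrix.mul_one, Matrix.mul_smul, Matrix.trace_sub, Matrix.trace_smul,
      hlap, htr, smul_eq_mul, div_eq_inv_mul]
  have htr0 : 0 < (KernAux.XX μ C).trace := by rw [htr]; exact hΦ
  have h0 : 0 ≤ (KernAux.XX μ C * walkL μ s t σ w c).trace := by
    rw [hXM, sub_nonneg, div_le_iff₀ hc0, mul_comm]
    exact hc3
  have h1 := moment_pow hX hM htr0 h0 q
  rw [hXM, htr] at h1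
  have hq : (kMass μ C - kEnergy s t σ w C / c) / kMass μ C =
      1 - kEnergy s t σ w C / (c * kMass μ C) := by
    field_simp
  rw [hq] at h1
  have hb0 : 0 ≤ 1 - kEnergy s t σ w C / (c * kMass μ C) := by
    rw [sub_nonneg, div_le_one (mul_pos hc0 hΦ)]
    exact hc3
  have hκX : ∀ p q, κ q = 0 → KernAux.XX μ C p q = 0 := by
    intro p q hq0
    show √(μ p.1) * √(μ q.1) * C p q = 0
    rw [hκC p q hq0, mul_zero]
  have h2 := frob hM hκ0 hκX (2 ^ q)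
  have h3 := lift_pow (walkL_nonneg μ s t σ w hμ hw hc0 hc) (walkL_row μ s t σ w c) hκ0 hκ1
    (2 * 2 ^ q)
  have h4 := trace_walk_le μ s t w lam hμ hμ1 hw hlam hnash hc0 hc hc2 (2 ^ q)
  have hk0 : 0 ≤ kCorr μ κ C := by
    unfold kCorr
    exact Finset.sum_nonneg fun x _ => Finset.sum_nonneg fun y _ =>
      mul_nonneg (mul_pos (hμ x) (hμ y)).le (Finset.sum_nonneg fun a _ =>
        Finset.sum_nonneg fun b _ => div_nonneg (sq_nonneg _) (hκ0 _))
  rw [hcorr] at h2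
  calc (kMass μ C * (1 - kEnergy s t σ w C / (c * kMass μ C)) ^ (2 ^ q)) ^ 2
      ≤ (KernAux.XX μ C * walkL μ s t σ w c ^ (2 ^ q)).trace ^ 2 :=
        pow_le_pow_left₀ (mul_nonneg hΦ.le (pow_nonneg hb0 _)) h1 2
    _ ≤ _ := h2
    _ ≤ kCorr μ κ C * (walk μ s t w c ^ (2 * 2 ^ q)).trace :=
        mul_le_mul_of_nonneg_left h3 hk0
    _ ≤ _ := mul_le_mul_of_nonneg_left h4 hk0

theorem kern_bound {T ι L : Type} [Fintype T] [DecidableEq T] [Nonempty T] [Fintype ι]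
    [Fintype L] [DecidableEq L]
    (μ : T → ℝ) (s t : ι → T) (σ : ι → Equiv.Perm L) (w : ι → ℝ) (lam : ℝ)
    (hμ : ∀ x, 0 < μ x) (hμ1 : ∑ x, μ x = 1) (hw : ∀ e, 0 ≤ w e) (hlam : 0 ≤ lam)
    (hnash : ∀ g : T → ℝ, (∀ x, 0 ≤ g x) → ∑ x, μ x * g x = 1 →
      lam * ((∑ x, μ x * g x ^ 2) * Real.log (∑ x, μ x * g x ^ 2)) ≤
        ∑ e, w e * (g (s e) - g (t e)) ^ 2)
    (C : T × L → T × L → ℝ) (hsym : ∀ p q, C p q = C q p)
    (hpsd : ∀ c : T × L → ℝ, 0 ≤ ∑ p, ∑ q, c p * c q * C p q) (hΦ : 0 < kMass μ C)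
    {κ : T × L → ℝ} (hκ0 : ∀ q, 0 ≤ κ q) (hκ1 : ∀ x, ∑ a, κ (x, a) = 1)
    (hκC : ∀ p q, κ q = 0 → C p q = 0)
    {T0 : ℝ} (hT0 : 0 ≤ T0) :
    kMass μ C ^ 2 * Real.exp (-(2 * T0 * (kEnergy s t σ w C / kMass μ C))) ≤
      kCorr μ κ C * (Fintype.card T : ℝ) ^ Real.exp (-(2 * lam * T0)) := by
  have hk0 : 0 ≤ kCorr μ κ C := by
    unfold kCorr
    exact Finset.sum_nonneg fun x _ => Finset.sum_nonneg fun y _ =>
      mul_nonneg (mul_pos (hμ x) (hμ y)).le (Finset.sum_nonneg fun a _ =>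
        Finset.sum_nonneg fun b _ => div_nonneg (sq_nonneg _) (hκ0 _))
  rcases hT0.eq_or_lt with hT | hT
  · -- the case T0 = 0
    subst hT
    have hκX : ∀ p q, κ q = 0 → KernAux.XX μ C p q = 0 := by
      intro p q hq0
      show √(μ p.1) * √(μ q.1) * C p q = 0
      rw [hκC p q hq0, mul_zero]
    have h2 := frob (X := KernAux.XX μ C) (walkL_isSymm μ s t σ w 1) hκ0 hκX 0
    rw [KernAux.XX_corr μ hμ C κ, pow_zero, Matrix.mul_one, KernAux.XX_trace μ hμ C] at h2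
    have h3 : ∑ q : T × L, κ q * (1 : Matrix (T × L) (T × L) ℝ) q q = Fintype.card T := by
      simp only [Matrix.one_apply_eq, mul_one]
      rw [Fintype.sum_prod_type]
      simp only [hκ1]
      simp
    rw [h3] at h2
    simpa using h2
  · -- the limit
    set Φ := kMass μ C with hΦdef
    set En := kEnergy s t σ w C with hEndef
    set Λ := lamMax μ s t w with hΛdef
    have hcard : (0 : ℝ) < Fintype.card T := by
      exact_mod_cast Fintype.card_pos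
    have hpow : Filter.Tendsto (fun q : ℕ => 2 ^ q) Filter.atTop (Filter.atTop : Filter ℕ) :=
      tendsto_pow_atTop_atTop_of_one_lt (by norm_num)
    -- the first sequence
    have hg1 : Filter.Tendsto (fun n : ℕ => (1 + (-(T0 * (En / Φ))) / (n : ℝ)) ^ n)
        Filter.atTop (nhds (Real.exp (-(T0 * (En / Φ))))) :=
      Real.tendsto_one_add_div_pow_exp _
    have hL : Filter.Tendsto
        (fun n : ℕ => (Φ * (1 + (-(T0 * (En / Φ))) / (n : ℝ)) ^ n) ^ 2)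
        Filter.atTop (nhds ((Φ * Real.exp (-(T0 * (En / Φ)))) ^ 2)) :=
      (hg1.const_mul Φ).pow 2
    -- the second sequence
    have hinv : Filter.Tendsto (fun n : ℕ => ((n : ℝ))⁻¹) Filter.atTop (nhds 0) :=
      tendsto_inv_atTop_nhds_zero_nat
    have hg2 : Filter.Tendsto (fun n : ℕ => (n : ℝ) *
        (-(2 * lam * T0 * (n : ℝ)⁻¹ * (1 - Λ * T0 / 2 * (n : ℝ)⁻¹))))
        Filter.atTop (nhds (-(2 * lam * T0))) := by
      have h1 : Filter.Tendsto (fun n : ℕ => -(2 * lam * T0) * (1 - Λ * T0 / 2 * (n : ℝ)⁻¹))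
          Filter.atTop (nhds (-(2 * lam * T0) * (1 - Λ * T0 / 2 * 0))) :=
        (tendsto_const_nhds.sub (hinv.const_mul _)).const_mul _
      rw [mul_zero, sub_zero, mul_one] at h1
      refine h1.congr' ?_
      filter_upwards [Filter.eventually_gt_atTop 0] with n hn
      have hn' : (n : ℝ) ≠ 0 := by exact_mod_cast hn.ne'
      field_simp
    have hθ := Real.tendsto_one_add_pow_exp_of_tendsto hg2
    have hR : Filter.Tendsto (fun n : ℕ => kCorr μ κ C * (Fintype.card T : ℝ) ^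
        ((1 + -(2 * lam * T0 * (n : ℝ)⁻¹ * (1 - Λ * T0 / 2 * (n : ℝ)⁻¹))) ^ n : ℝ))
        Filter.atTop (nhds (kCorr μ κ C * (Fintype.card T : ℝ) ^ Real.exp (-(2 * lam * T0)))) := by
      refine Filter.Tendsto.const_mul _ ?_
      exact (tendsto_const_nhds.rpow hθ (Or.inl hcard.ne'))
    have hc : Filter.Tendsto (fun q : ℕ => (2 : ℝ) ^ q / T0) Filter.atTop Filter.atTop :=
      (tendsto_pow_atTop_atTop_of_one_lt (by norm_num)).atTop_div_const hT
    have hev : ∀ᶠ q : ℕ in Filter.atTop,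
        (Φ * (1 + (-(T0 * (En / Φ))) / (((2 ^ q : ℕ) : ℕ) : ℝ)) ^ (2 ^ q)) ^ 2 ≤
        kCorr μ κ C * (Fintype.card T : ℝ) ^
        ((1 + -(2 * lam * T0 * ((2 ^ q : ℕ) : ℝ)⁻¹ *
          (1 - Λ * T0 / 2 * ((2 ^ q : ℕ) : ℝ)⁻¹))) ^ (2 ^ q) : ℝ) := by
      filter_upwards [hc.eventually_ge_atTop Λ, hc.eventually_ge_atTop (2 * lam),
        hc.eventually_ge_atTop (En / Φ), hc.eventually_gt_atTop 0] with q h1 h2 h3 h4
      have h3' : En ≤ (2 : ℝ) ^ q / T0 * Φ := by rwa [div_le_iff₀ hΦ] at h3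
      have h := pre_bound μ s t σ w lam hμ hμ1 hw hlam hnash C hsym hpsd hΦ hκ0 hκ1 hκC
        h4 h1 h2 h3' q
      have h2q : ((2 : ℝ) ^ q) ≠ 0 := by positivity
      have e1 : 1 + (-(T0 * (En / Φ))) / (((2 ^ q : ℕ) : ℕ) : ℝ) =
          1 - En / ((2 : ℝ) ^ q / T0 * Φ) := by
        push_cast
        have hΦ' := hΦ.ne'
        have hT' := hT.ne'
        field_simp
        try ring
      have e2 : 1 + -(2 * lam * T0 * ((2 ^ q : ℕ) : ℝ)⁻¹ *
          (1 - Λ * T0 / 2 * ((2 ^ q : ℕ) : ℝ)⁻¹)) =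
          1 - 2 * lam / ((2 : ℝ) ^ q / T0) * (1 - Λ / (2 * ((2 : ℝ) ^ q / T0))) := by
        push_cast
        have hT' := hT.ne'
        field_simp
        try ring
      rw [e1, e2]
      exact h
    have hfin := le_of_tendsto_of_tendsto (hL.comp hpow) (hR.comp hpow) hev
    refine le_of_eq_of_le ?_ hfin
    rw [mul_pow, ← Real.exp_nat_mul]
    congr 2
    push_cast
    ring

end Pool.Agent.Lib.P325s
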