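import Pool.Agent.Lib.P325s.MatDefs

/-!
P325s.WalkFacts: elementary properties of the walk matrix of the base.

PROOF. Write `v e x = bv μ s t e x`. `walk_nonneg`: off the diagonal `v e x * v e y ≤ 0` (the two `if` terms are
supported at one point each), so `walk x y = - c⁻¹ lap x y ≥ 0`; on the diagonal
`(v e x)² ≤ (if s e = x then (μ x)⁻¹ else 0) + (if t e = x then (μ x)⁻¹ else 0) ≤ (μ (s e))⁻¹ + (μ (t e))⁻¹`, so
`lap x x ≤ lamMax ≤ c`. `sum_sqrt_walk`: `∑ x, √(μ x) * v e x = 1 - 1 = 0`, so `∑ x, √(μ x) * lap x y = 0`.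
`lap_quad`: `∑ x, v e x * h x = h (s e) / √(μ (s e)) - h (t e) / √(μ (t e))`.
`lap_sq_le`: `lap *ᵥ h = ∑ e, w e * (v e ⬝ h) • v e`. For every vector `z`, by Cauchy-Schwarz over `e` with
weights `w`, `(z ⬝ lap h)² = (∑ e, w e (v e ⬝ h) (v e ⬝ z))² ≤ (h ⬝ lap h) (∑ e, w e (v e ⬝ z)²)` and
`(v e ⬝ z)² ≤ |v e|² |z|²`, `|v e|² ≤ (μ (s e))⁻¹ + (μ (t e))⁻¹`; so
`(z ⬝ lap h)² ≤ (h ⬝ lap h) * lamMax * |z|²`. Take `z = lap h` and cancel `|z|²` (if `|z|² = 0` it is clear).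
-/

open scoped BigOperators Matrix

namespace Pool.Agent.Lib.P325s

theorem walk_isSymm {T ι : Type} [DecidableEq T] [Fintype ι] (μ : T → ℝ) (s t : ι → T)
    (w : ι → ℝ) (c : ℝ) : (walk μ s t w c).IsSymm := by
  have h1 : (lap μ s t w).IsSymm := by
    ext x y
    simp only [lap, Matrix.transpose_apply]
    exact Finset.sum_congr rfl fun e _ => by ring
  unfold walk
  exact Matrix.isSymm_one.sub (h1.smul _)

namespace WalkFactsAux

private theorem bv_mul_nonpos {T ι : Type} [DecidableEq T] (μ : T → ℝ) (s t : ι → T) (e : ι)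
    {x y : T} (hxy : x ≠ y) : bv μ s t e x * bv μ s t e y ≤ 0 := by
  have hx : 0 ≤ (√(μ x))⁻¹ := inv_nonneg.mpr (Real.sqrt_nonneg _)
  have hy : 0 ≤ (√(μ y))⁻¹ := inv_nonneg.mpr (Real.sqrt_nonneg _)
  unfold bv
  by_cases h1 : s e = x
  · have h2 : ¬ s e = y := fun h => hxy (h1.symm.trans h)
    by_cases h3 : t e = x
    · rw [if_pos h1, if_pos h3]; simp
    · rw [if_pos h1, if_neg h3, if_neg h2]
      by_cases h4 : t e = y
      · rw [if_pos h4]
        nlinarith [mul_nonneg hx hy]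
      · rw [if_neg h4]; simp
  · rw [if_neg h1]
    by_cases h3 : t e = x
    · have h4 : ¬ t e = y := fun h => hxy (h3.symm.trans h)
      rw [if_pos h3, if_neg h4]
      by_cases h2 : s e = y
      · rw [if_pos h2]
        nlinarith [mul_nonneg hx hy]
      · rw [if_neg h2]; simp
    · rw [if_neg h3]; simp

private theorem bv_sq_le {T ι : Type} [DecidableEq T] (μ : T → ℝ) (s t : ι → T)
    (hμ : ∀ x, 0 < μ x) (e : ι) (x : T) :
    bv μ s t e x * bv μ s t e x ≤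
      (if s e = x then (μ x)⁻¹ else 0) + (if t e = x then (μ x)⁻¹ else 0) := by
  have hx : 0 ≤ (μ x)⁻¹ := inv_nonneg.mpr (hμ x).le
  have hsq : (√(μ x))⁻¹ * (√(μ x))⁻¹ = (μ x)⁻¹ := by
    rw [← mul_inv, Real.mul_self_sqrt (hμ x).le]
  unfold bv
  by_cases h1 : s e = x <;> by_cases h3 : t e = x
  · rw [if_pos h1, if_pos h3, if_pos h1, if_pos h3]; simp; exact (hμ x).le
  · rw [if_pos h1, if_neg h3, if_pos h1, if_neg h3, sub_zero, add_zero, hsq]
  · rw [if_neg h1, if_pos h3, if_neg h1, if_pos h3, zero_sub, neg_mul_neg, zero_add, hsq]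
  · rw [if_neg h1, if_neg h3, if_neg h1, if_neg h3]; simp

end WalkFactsAux

theorem walk_nonneg {T ι : Type} [DecidableEq T] [Fintype ι] (μ : T → ℝ) (s t : ι → T)
    (w : ι → ℝ) (hμ : ∀ x, 0 < μ x) (hw : ∀ e, 0 ≤ w e) {c : ℝ} (hc0 : 0 < c)
    (hc : lamMax μ s t w ≤ c) (x y : T) : 0 ≤ walk μ s t w c x y := by
  have hcc : (0 : ℝ) ≤ c⁻¹ := inv_nonneg.mpr hc0.le
  unfold walk
  rw [Matrix.sub_apply, Matrix.smul_apply, smul_eq_mul, Matrix.one_apply]
  by_cases hxy : x = y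
  · subst hxy
    rw [if_pos rfl]
    have h1 : lap μ s t w x x ≤ lamMax μ s t w := by
      unfold lap lamMax
      refine Finset.sum_le_sum fun e _ => mul_le_mul_of_nonneg_left ?_ (hw e)
      refine le_trans (WalkFactsAux.bv_sq_le μ s t hμ e x) ?_
      refine add_le_add ?_ ?_
      · by_cases h : s e = x
        · rw [if_pos h, h]
        · rw [if_neg h]; exact inv_nonneg.mpr (hμ _).le
      · by_cases h : t e = x
        · rw [if_pos h, h]
        · rw [if_neg h]; exact inv_nonneg.mpr (hμ _).le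
    have h2 : c⁻¹ * lap μ s t w x x ≤ c⁻¹ * c :=
      mul_le_mul_of_nonneg_left (h1.trans hc) hcc
    rw [inv_mul_cancel₀ hc0.ne'] at h2
    linarith
  · rw [if_neg hxy]
    have h1 : lap μ s t w x y ≤ 0 := by
      unfold lap
      refine Finset.sum_nonpos fun e _ => ?_
      exact mul_nonpos_of_nonneg_of_nonpos (hw e) (WalkFactsAux.bv_mul_nonpos μ s t e hxy)
    have h2 : c⁻¹ * lap μ s t w x y ≤ 0 := mul_nonpos_of_nonneg_of_nonpos hcc h1
    linarith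

namespace WalkFactsAux

private theorem bv_dot {T ι : Type} [Fintype T] [DecidableEq T] (μ : T → ℝ) (s t : ι → T)
    (e : ι) (h : T → ℝ) :
    ∑ x, bv μ s t e x * h x = h (s e) / √(μ (s e)) - h (t e) / √(μ (t e)) := by
  unfold bv
  simp only [sub_mul, ite_mul, zero_mul, Finset.sum_sub_distrib, Finset.sum_ite_eq,
    Finset.mem_univ, if_true]
  ring

private theorem lap_mulVec {T ι : Type} [Fintype T] [DecidableEq T] [Fintype ι] (μ : T → ℝ)
    (s t : ι → T) (w : ι → ℝ) (h : T → ℝ) (x : T) :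
    (lap μ s t w *ᵥ h) x = ∑ e, w e * ((∑ y, bv μ s t e y * h y) * bv μ s t e x) := by
  simp only [Matrix.mulVec, dotProduct, lap, Finset.sum_mul, Finset.mul_sum]
  rw [Finset.sum_comm]
  exact Finset.sum_congr rfl fun e _ => Finset.sum_congr rfl fun y _ => by ring

private theorem dot_lap {T ι : Type} [Fintype T] [DecidableEq T] [Fintype ι] (μ : T → ℝ)
    (s t : ι → T) (w : ι → ℝ) (z h : T → ℝ) :
    ∑ x, z x * (lap μ s t w *ᵥ h) x =
      ∑ e, w e * ((∑ y, bv μ s t e y * z y) * (∑ y, bv μ s t e y * h y)) := by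
  simp only [lap_mulVec, Finset.mul_sum]
  rw [Finset.sum_comm]
  refine Finset.sum_congr rfl fun e _ => ?_
  simp only [Finset.sum_mul, Finset.mul_sum]
  rw [Finset.sum_comm]
  exact Finset.sum_congr rfl fun x _ => Finset.sum_congr rfl fun y _ => by ring

private theorem bv_norm {T ι : Type} [Fintype T] [DecidableEq T] (μ : T → ℝ) (s t : ι → T)
    (hμ : ∀ x, 0 < μ x) (e : ι) :
    ∑ x, bv μ s t e x ^ 2 ≤ (μ (s e))⁻¹ + (μ (t e))⁻¹ := by
  calc ∑ x, bv μ s t e x ^ 2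
      ≤ ∑ x, ((if s e = x then (μ x)⁻¹ else 0) + (if t e = x then (μ x)⁻¹ else 0)) := by
        refine Finset.sum_le_sum fun x _ => ?_
        rw [pow_two]
        exact bv_sq_le μ s t hμ e x
    _ = (μ (s e))⁻¹ + (μ (t e))⁻¹ := by
        rw [Finset.sum_add_distrib]
        simp

end WalkFactsAux

theorem sum_sqrt_walk {T ι : Type} [Fintype T] [DecidableEq T] [Fintype ι] (μ : T → ℝ)
    (s t : ι → T) (w : ι → ℝ) (hμ : ∀ x, 0 < μ x) (c : ℝ) (h : T → ℝ) :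
    ∑ x, √(μ x) * (walk μ s t w c *ᵥ h) x = ∑ x, √(μ x) * h x := by
  have h0 : ∑ x, √(μ x) * (lap μ s t w *ᵥ h) x = 0 := by
    rw [WalkFactsAux.dot_lap]
    refine Finset.sum_eq_zero fun e _ => ?_
    rw [WalkFactsAux.bv_dot, div_self (Real.sqrt_pos.mpr (hμ _)).ne',
      div_self (Real.sqrt_pos.mpr (hμ _)).ne']
    simp
  have h1 : ∀ x, (walk μ s t w c *ᵥ h) x = h x - c⁻¹ * (lap μ s t w *ᵥ h) x := by
    intro x
    unfold walk
    rw [Matrix.sub_mulVec, Matrix.one_mulVec, Matrix.smul_mulVec]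
    simp
  simp only [h1, mul_sub, Finset.sum_sub_distrib]
  have h2 : ∑ x, √(μ x) * (c⁻¹ * (lap μ s t w *ᵥ h) x) =
      c⁻¹ * ∑ x, √(μ x) * (lap μ s t w *ᵥ h) x := by
    rw [Finset.mul_sum]
    exact Finset.sum_congr rfl fun x _ => by ring
  rw [h2, h0]
  simp

theorem lap_quad {T ι : Type} [Fintype T] [DecidableEq T] [Fintype ι] (μ : T → ℝ)
    (s t : ι → T) (w : ι → ℝ) (h : T → ℝ) :
    h ⬝ᵥ (lap μ s t w *ᵥ h) =
      ∑ e, w e * (h (s e) / √(μ (s e)) - h (t e) / √(μ (t e))) ^ 2 := by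
  unfold dotProduct
  rw [WalkFactsAux.dot_lap]
  refine Finset.sum_congr rfl fun e _ => ?_
  rw [WalkFactsAux.bv_dot, pow_two]

theorem lap_sq_le {T ι : Type} [Fintype T] [DecidableEq T] [Fintype ι] (μ : T → ℝ)
    (s t : ι → T) (w : ι → ℝ) (hμ : ∀ x, 0 < μ x) (hw : ∀ e, 0 ≤ w e) (h : T → ℝ) :
    (lap μ s t w *ᵥ h) ⬝ᵥ (lap μ s t w *ᵥ h) ≤
      lamMax μ s t w * (h ⬝ᵥ (lap μ s t w *ᵥ h)) := by
  set z : T → ℝ := lap μ s t w *ᵥ h with hz
  have hzz : z ⬝ᵥ z = ∑ e, w e * ((∑ y, bv μ s t e y * z y) * (∑ y, bv μ s t e y * h y)) := by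
    unfold dotProduct
    rw [← WalkFactsAux.dot_lap μ s t w z h]
  have hhz : h ⬝ᵥ z = ∑ e, w e * (∑ y, bv μ s t e y * h y) ^ 2 := by
    unfold dotProduct
    rw [hz, WalkFactsAux.dot_lap μ s t w h h]
    exact Finset.sum_congr rfl fun e _ => by ring
  have hz0 : 0 ≤ z ⬝ᵥ z := by
    unfold dotProduct
    exact Finset.sum_nonneg fun x _ => mul_self_nonneg _
  have hh0 : 0 ≤ h ⬝ᵥ z := by
    rw [hhz]
    exact Finset.sum_nonneg fun e _ => mul_nonneg (hw e) (sq_nonneg _)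
  have hL0 : 0 ≤ lamMax μ s t w := by
    unfold lamMax
    exact Finset.sum_nonneg fun e _ => mul_nonneg (hw e)
      (add_nonneg (inv_nonneg.mpr (hμ _).le) (inv_nonneg.mpr (hμ _).le))
  have hA : ∑ e, w e * (∑ y, bv μ s t e y * z y) ^ 2 ≤ lamMax μ s t w * (z ⬝ᵥ z) := by
    unfold lamMax
    rw [Finset.sum_mul]
    refine Finset.sum_le_sum fun e _ => ?_
    rw [mul_assoc]
    refine mul_le_mul_of_nonneg_left ?_ (hw e)
    calc (∑ y, bv μ s t e y * z y) ^ 2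
        ≤ (∑ y, bv μ s t e y ^ 2) * ∑ y, z y ^ 2 := Finset.sum_mul_sq_le_sq_mul_sq _ _ _
      _ = (∑ y, bv μ s t e y ^ 2) * (z ⬝ᵥ z) := by
          unfold dotProduct
          simp only [pow_two]
      _ ≤ ((μ (s e))⁻¹ + (μ (t e))⁻¹) * (z ⬝ᵥ z) :=
          mul_le_mul_of_nonneg_right (WalkFactsAux.bv_norm μ s t hμ e) hz0
  have hCS : (z ⬝ᵥ z) ^ 2 ≤ (∑ e, w e * (∑ y, bv μ s t e y * z y) ^ 2) *
      ∑ e, w e * (∑ y, bv μ s t e y * h y) ^ 2 := by
    have h1 := Finset.sum_mul_sq_le_sq_mul_sq (Finset.univ : Finset ι)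
      (fun e => √(w e) * ∑ y, bv μ s t e y * z y) (fun e => √(w e) * ∑ y, bv μ s t e y * h y)
    have h2 : ∑ e, (√(w e) * ∑ y, bv μ s t e y * z y) * (√(w e) * ∑ y, bv μ s t e y * h y) =
        z ⬝ᵥ z := by
      rw [hzz]
      refine Finset.sum_congr rfl fun e _ => ?_
      have := Real.mul_self_sqrt (hw e)
      calc _ = (√(w e) * √(w e)) * ((∑ y, bv μ s t e y * z y) * ∑ y, bv μ s t e y * h y) := by
            ring
        _ = _ := by rw [this]
    have h3 : ∀ (u : T → ℝ), ∑ e, (√(w e) * ∑ y, bv μ s t e y * u y) ^ 2 =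
        ∑ e, w e * (∑ y, bv μ s t e y * u y) ^ 2 := by
      intro u
      refine Finset.sum_congr rfl fun e _ => ?_
      rw [mul_pow, Real.sq_sqrt (hw e)]
    rw [h2, h3, h3] at h1
    exact h1
  rcases hz0.eq_or_lt with h0 | h0
  · rw [← h0]
    exact mul_nonneg hL0 hh0
  · have h1 : (z ⬝ᵥ z) * (z ⬝ᵥ z) ≤ (lamMax μ s t w * (h ⬝ᵥ z)) * (z ⬝ᵥ z) := by
      calc (z ⬝ᵥ z) * (z ⬝ᵥ z) = (z ⬝ᵥ z) ^ 2 := by ring
        _ ≤ (∑ e, w e * (∑ y, bv μ s t e y * z y) ^ 2) *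
            ∑ e, w e * (∑ y, bv μ s t e y * h y) ^ 2 := hCS
        _ = (∑ e, w e * (∑ y, bv μ s t e y * z y) ^ 2) * (h ⬝ᵥ z) := by rw [hhz]
        _ ≤ (lamMax μ s t w * (z ⬝ᵥ z)) * (h ⬝ᵥ z) := mul_le_mul_of_nonneg_right hA hh0
        _ = _ := by ring
    exact le_of_mul_le_mul_right h1 h0

end Pool.Agent.Lib.P325s
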