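import Pool.Agent.Lib.P325s.FuncDefs

/-!
P325s.FuncA: elementary properties of `cutEn`, `ent`, `Psi`.

Hints. `√(c * a) = √c * √a` for `c ≥ 0` (`Real.sqrt_mul`), `Real.negMulLog_mul`,
`Real.continuous_negMulLog`, `Real.continuous_sqrt`. `ent_nonneg`: every `u x = p x * σ x` is at
most the sum `m`, so `- u log u + u log m ≥ 0`. `ent_le`: for `u x > 0`, `n = |V|`:
`- u log u + u log m - u log n = u log (m / (n u)) ≤ u (m / (n u) - 1) = m / n - u` (for `u x = 0` the left
side is `0 ≤ m / n`); sum over `x`.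
-/

open scoped BigOperators

namespace Pool.Agent.Lib.P325s

theorem cutEn_nonneg {V ι : Type} [Fintype ι] (s t : ι → V) {w : ι → ℝ} (hw : ∀ e, 0 ≤ w e)
    (σ : V → ℝ) : 0 ≤ cutEn s t w σ := by
  unfold cutEn
  exact Finset.sum_nonneg fun e _ => mul_nonneg (hw e) (sq_nonneg _)

theorem cutEn_smul {V ι : Type} [Fintype ι] (s t : ι → V) (w : ι → ℝ) (σ : V → ℝ) {c : ℝ}
    (hc : 0 ≤ c) : cutEn s t w (c • σ) = c * cutEn s t w σ := by
  unfold cutEn
  rw [Finset.mul_sum]
  refine Finset.sum_congr rfl fun e _ => ?_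
  rw [Pi.smul_apply, Pi.smul_apply, smul_eq_mul, smul_eq_mul, Real.sqrt_mul hc, Real.sqrt_mul hc]
  have h : √c ^ 2 = c := Real.sq_sqrt hc
  calc w e * (√c * √(σ (s e)) - √c * √(σ (t e))) ^ 2
      = √c ^ 2 * (w e * (√(σ (s e)) - √(σ (t e))) ^ 2) := by ring
    _ = _ := by rw [h]

theorem ent_smul {V : Type} [Fintype V] (p σ : V → ℝ) (c : ℝ) :
    ent p (c • σ) = c * ent p σ := by
  unfold ent
  have h1 : ∀ x, p x * (c • σ) x = c * (p x * σ x) := by
    intro x
    rw [Pi.smul_apply, smul_eq_mul]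
    ring
  simp only [h1]
  rw [← Finset.mul_sum, Real.negMulLog_mul]
  simp only [Real.negMulLog_mul]
  rw [Finset.sum_add_distrib, ← Finset.sum_mul, ← Finset.mul_sum]
  ring

namespace FuncAAux

theorem ent_eq {V : Type} [Fintype V] (p σ : V → ℝ) :
    ent p σ = ∑ x, (Real.negMulLog (p x * σ x) + p x * σ x * Real.log (∑ y, p y * σ y)) := by
  unfold ent
  rw [Finset.sum_add_distrib, ← Finset.sum_mul, Real.negMulLog]
  ring

end FuncAAux

open FuncAAux

theorem ent_nonneg {V : Type} [Fintype V] {p σ : V → ℝ} (hp : ∀ x, 0 ≤ p x) (hσ : ∀ x, 0 ≤ σ x) :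
    0 ≤ ent p σ := by
  rw [ent_eq]
  have hu : ∀ x, 0 ≤ p x * σ x := fun x => mul_nonneg (hp x) (hσ x)
  refine Finset.sum_nonneg fun x _ => ?_
  have hle : p x * σ x ≤ ∑ y, p y * σ y :=
    Finset.single_le_sum (fun y _ => hu y) (Finset.mem_univ x)
  rcases (hu x).eq_or_lt with h0 | hpos
  · rw [← h0]
    simp
  · have h1 : Real.log (p x * σ x) ≤ Real.log (∑ y, p y * σ y) := Real.log_le_log hpos hle
    rw [Real.negMulLog]
    nlinarith

theorem ent_le {V : Type} [Fintype V] [Nonempty V] {p σ : V → ℝ} (hp : ∀ x, 0 ≤ p x)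
    (hσ : ∀ x, 0 ≤ σ x) : ent p σ ≤ (∑ x, p x * σ x) * Real.log (Fintype.card V) := by
  rw [ent_eq]
  set m := ∑ y, p y * σ y with hm
  have hu : ∀ x, 0 ≤ p x * σ x := fun x => mul_nonneg (hp x) (hσ x)
  have hn : (0 : ℝ) < Fintype.card V := by exact_mod_cast Fintype.card_pos
  have hm0 : 0 ≤ m := Finset.sum_nonneg fun y _ => hu y
  have key : ∀ x, Real.negMulLog (p x * σ x) + p x * σ x * Real.log m ≤
      p x * σ x * Real.log (Fintype.card V) + (m / Fintype.card V - p x * σ x) := by
    intro x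
    have hle : p x * σ x ≤ m := Finset.single_le_sum (fun y _ => hu y) (Finset.mem_univ x)
    rcases (hu x).eq_or_lt with h0 | hpos
    · rw [← h0]
      simp only [Real.negMulLog_zero, zero_mul, add_zero, zero_add, sub_zero]
      positivity
    · have hmpos : 0 < m := hpos.trans_le hle
      have h1 : Real.log (m / (Fintype.card V * (p x * σ x))) ≤ m / (Fintype.card V * (p x * σ x)) - 1 :=
        Real.log_le_sub_one_of_pos (by positivity)
      rw [Real.log_div hmpos.ne' (by positivity), Real.log_mul hn.ne' hpos.ne'] at h1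
      have h2 := mul_le_mul_of_nonneg_left h1 hpos.le
      have h3 : p x * σ x * (m / (Fintype.card V * (p x * σ x)) - 1) = m / Fintype.card V - p x * σ x := by
        have hne : p x * σ x ≠ 0 := hpos.ne'
        generalize p x * σ x = u at hne ⊢
        field_simp
      rw [h3] at h2
      rw [Real.negMulLog]
      linarith
  refine (Finset.sum_le_sum fun x _ => key x).trans ?_
  rw [Finset.sum_add_distrib, ← Finset.sum_mul, Finset.sum_sub_distrib, Finset.sum_const, Finset.card_univ,
    nsmul_eq_mul, ← hm]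
  have : (Fintype.card V : ℝ) * (m / Fintype.card V) = m := by field_simp
  rw [this]
  linarith

theorem continuous_Psi {V ι : Type} [Fintype V] [Fintype ι] (s t : ι → V) (w : ι → ℝ) (p : V → ℝ)
    (lam : ℝ) : Continuous (Psi s t w p lam) := by
  unfold Psi cutEn ent
  have h1 : ∀ x : V, Continuous fun σ : V → ℝ => √(σ x) := fun x =>
    Real.continuous_sqrt.comp (continuous_apply x)
  have h2 : ∀ x : V, Continuous fun σ : V → ℝ => p x * σ x := fun x =>
    continuous_const.mul (continuous_apply x)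
  have h3 : ∀ x : V, Continuous fun σ : V → ℝ => Real.negMulLog (p x * σ x) := fun x =>
    Real.continuous_negMulLog.comp (h2 x)
  have h4 : Continuous fun σ : V → ℝ => Real.negMulLog (∑ x, p x * σ x) :=
    Real.continuous_negMulLog.comp (continuous_finsetSum _ fun x _ => h2 x)
  refine Continuous.add (continuous_finsetSum _ fun e _ => ?_) (continuous_const.mul ?_)
  · exact continuous_const.mul (((h1 (s e)).sub (h1 (t e))).pow 2)
  · exact (continuous_finsetSum _ fun x _ => h3 x).sub h4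

theorem Psi_smul {V ι : Type} [Fintype V] [Fintype ι] (s t : ι → V) (w : ι → ℝ) (p : V → ℝ)
    (lam : ℝ) (σ : V → ℝ) {c : ℝ} (hc : 0 ≤ c) :
    Psi s t w p lam (c • σ) = c * Psi s t w p lam σ := by
  unfold Psi
  rw [cutEn_smul s t w σ hc, ent_smul]
  ring

end Pool.Agent.Lib.P325s
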