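import Mathlib

/-!
The functional `Psi` whose minimisers over fractional partitions are the soft decompositions.
`s`, `t` are the ends of the edges of a finite multigraph and `w` their weights.
-/

open scoped BigOperators

namespace Pool.Agent.Lib.P325s

/-- The Hellinger cost of a part `σ` on the weighted multigraph with ends `s`, `t`, weights `w`. -/
noncomputable def cutEn {V ι : Type} [Fintype ι] (s t : ι → V) (w : ι → ℝ) (σ : V → ℝ) : ℝ :=
  ∑ e, w e * (√(σ (s e)) - √(σ (t e))) ^ 2

/-- Mass times entropy of the measure `p * σ`. -/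
noncomputable def ent {V : Type} [Fintype V] (p σ : V → ℝ) : ℝ :=
  ∑ x, Real.negMulLog (p x * σ x) - Real.negMulLog (∑ x, p x * σ x)

/-- The functional `cutEn + lam * ent`. -/
noncomputable def Psi {V ι : Type} [Fintype V] [Fintype ι] (s t : ι → V) (w : ι → ℝ) (p : V → ℝ)
    (lam : ℝ) (σ : V → ℝ) : ℝ :=
  cutEn s t w σ + lam * ent p σ

end Pool.Agent.Lib.P325s
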