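import Mathlib

/-!
Random walk matrices of a weighted multigraph (edges `e` of weight `w e` joining `s e` and `t e`,
vertex measure `μ`) and of its lift to `T × L` by permutations `σ e` of `L`.
-/

open scoped BigOperators

namespace Pool.Agent.Lib.P325s

/-- The vector of the edge `e`: `δ_(s e) / √μ - δ_(t e) / √μ`. -/
noncomputable def bv {T ι : Type} [DecidableEq T] (μ : T → ℝ) (s t : ι → T) (e : ι) (x : T) : ℝ :=
  (if s e = x then (√(μ x))⁻¹ else 0) - (if t e = x then (√(μ x))⁻¹ else 0)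

/-- The Laplacian `∑ e, w e * v_e v_eᵀ`. -/
noncomputable def lap {T ι : Type} [DecidableEq T] [Fintype ι] (μ : T → ℝ) (s t : ι → T)
    (w : ι → ℝ) : Matrix T T ℝ :=
  fun x y => ∑ e, w e * (bv μ s t e x * bv μ s t e y)

/-- The walk matrix `1 - lap / c`. -/
noncomputable def walk {T ι : Type} [DecidableEq T] [Fintype ι] (μ : T → ℝ) (s t : ι → T)
    (w : ι → ℝ) (c : ℝ) : Matrix T T ℝ :=
  1 - c⁻¹ • lap μ s t w

/-- The vector of the lifted edge `(e, a)` joining `(s e, a)` and `(t e, σ e a)`. -/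
noncomputable def bvL {T ι L : Type} [DecidableEq T] [DecidableEq L] (μ : T → ℝ) (s t : ι → T)
    (σ : ι → Equiv.Perm L) (e : ι) (a : L) (p : T × L) : ℝ :=
  (if s e = p.1 ∧ a = p.2 then (√(μ p.1))⁻¹ else 0) -
    (if t e = p.1 ∧ σ e a = p.2 then (√(μ p.1))⁻¹ else 0)

/-- The Laplacian of the lift. -/
noncomputable def lapL {T ι L : Type} [DecidableEq T] [DecidableEq L] [Fintype ι] [Fintype L]
    (μ : T → ℝ) (s t : ι → T) (σ : ι → Equiv.Perm L) (w : ι → ℝ) : Matrix (T × L) (T × L) ℝ :=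
  fun p q => ∑ e, w e * ∑ a, bvL μ s t σ e a p * bvL μ s t σ e a q

/-- The walk matrix of the lift. -/
noncomputable def walkL {T ι L : Type} [DecidableEq T] [DecidableEq L] [Fintype ι] [Fintype L]
    (μ : T → ℝ) (s t : ι → T) (σ : ι → Equiv.Perm L) (w : ι → ℝ) (c : ℝ) :
    Matrix (T × L) (T × L) ℝ :=
  1 - c⁻¹ • lapL μ s t σ w

/-- An upper bound for both Laplacians. -/
noncomputable def lamMax {T ι : Type} [Fintype ι] (μ : T → ℝ) (s t : ι → T) (w : ι → ℝ) : ℝ :=
  ∑ e, w e * ((μ (s e))⁻¹ + (μ (t e))⁻¹)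

/-- The trace of a kernel on `T × L` with respect to `μ`. -/
noncomputable def kMass {T L : Type} [Fintype T] [Fintype L] (μ : T → ℝ)
    (C : T × L → T × L → ℝ) : ℝ :=
  ∑ x, μ x * ∑ a, C (x, a) (x, a)

/-- The energy of a kernel along the lifted edges. -/
noncomputable def kEnergy {T ι L : Type} [Fintype ι] [Fintype L] (s t : ι → T)
    (σ : ι → Equiv.Perm L) (w : ι → ℝ) (C : T × L → T × L → ℝ) : ℝ :=
  ∑ e, w e * ∑ a, (C (s e, a) (s e, a) + C (t e, σ e a) (t e, σ e a) -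
    2 * C (s e, a) (t e, σ e a))

/-- The weighted mean square of a kernel with respect to `μ`, normalised by `κ`. -/
noncomputable def kCorr {T L : Type} [Fintype T] [Fintype L] (μ : T → ℝ) (κ : T × L → ℝ)
    (C : T × L → T × L → ℝ) : ℝ :=
  ∑ x, ∑ y, μ x * μ y * ∑ a, ∑ b, C (x, a) (y, b) ^ 2 / κ (y, b)

end Pool.Agent.Lib.P325s
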