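import Mathlib

/-!
P325s.Reduce: Caratheodory reduction. A fractional partition with `N + 1 > |V|` parts can be
replaced by one with `N` parts without increasing a 1-homogeneous functional.

PROOF. The `N + 1` vectors `ρ i : V → ℝ` are linearly dependent: `∑ c i • ρ i = 0`, `c ≠ 0`
(e.g. `Module.exists_nontrivial_relation_of_finrank_lt_card` or
`Matrix.exists_mulVec_eq_zero_iff`, `exists_ne_zero` for a linear map to a space of smaller
dimension). Changing the sign of `c` we may assume `∑ c i * Ψ (ρ i) ≤ 0`.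
Case A: some `c i < 0`. Let `u = min 1/(-c i)` over the `i` with `c i < 0`, attained at `j`. Then
`ρ' i = (1 + u c i) • ρ i ≥ 0`, `∑ ρ' i = ∑ ρ i`, `ρ' j = 0`,
`∑ Ψ (ρ' i) = ∑ (1 + u c i) Ψ (ρ i) ≤ ∑ Ψ (ρ i)`. Drop `j` (`Fin.succAbove j`, `Fin.sum_univ_succAbove`,
`Ψ 0 = 0` by homogeneity with factor 0).
Case B: all `c i ≥ 0`, some `c j > 0`. Then `∑ c i ρ i x = 0` with nonnegative terms gives
`ρ j = 0`; drop `j`.
-/

open scoped BigOperators

namespace Pool.Agent.Lib.P325s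

theorem reduce_parts {V : Type} [Fintype V] (Ψ : (V → ℝ) → ℝ)
    (hh : ∀ c : ℝ, 0 ≤ c → ∀ σ : V → ℝ, Ψ (c • σ) = c * Ψ σ)
    {N : ℕ} (hN : Fintype.card V ≤ N) (ρ : Fin (N + 1) → V → ℝ)
    (hρ : ∀ i x, 0 ≤ ρ i x) :
    ∃ ρ' : Fin N → V → ℝ, (∀ i x, 0 ≤ ρ' i x) ∧ (∀ x, ∑ i, ρ' i x = ∑ i, ρ i x) ∧
      ∑ i, Ψ (ρ' i) ≤ ∑ i, Ψ (ρ i) := by
  have h0 : Ψ 0 = 0 := by
    have := hh 0 le_rfl 0
    rwa [zero_smul, zero_mul] at this
  -- dropping a part which is zero
  have drop : ∀ σ : Fin (N + 1) → V → ℝ, ∀ j, (∀ i x, 0 ≤ σ i x) → σ j = 0 →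
      (∀ x, ∑ i, σ i x = ∑ i, ρ i x) → ∑ i, Ψ (σ i) ≤ ∑ i, Ψ (ρ i) →
      ∃ ρ' : Fin N → V → ℝ, (∀ i x, 0 ≤ ρ' i x) ∧ (∀ x, ∑ i, ρ' i x = ∑ i, ρ i x) ∧
        ∑ i, Ψ (ρ' i) ≤ ∑ i, Ψ (ρ i) := by
    intro σ j h1 h2 h3 h4
    refine ⟨fun i => σ (j.succAbove i), fun i x => h1 _ x, fun x => ?_, ?_⟩
    · rw [← h3 x, Fin.sum_univ_succAbove _ j, h2, Pi.zero_apply, zero_add]
    · rw [Fin.sum_univ_succAbove _ j, h2, h0, zero_add] at h4
      exact h4
  -- the argument for a relation with the right sign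
  have main : ∀ c : Fin (N + 1) → ℝ, (∑ i, c i • ρ i = 0) → (∃ i, c i ≠ 0) →
      ∑ i, c i * Ψ (ρ i) ≤ 0 →
      ∃ ρ' : Fin N → V → ℝ, (∀ i x, 0 ≤ ρ' i x) ∧ (∀ x, ∑ i, ρ' i x = ∑ i, ρ i x) ∧
        ∑ i, Ψ (ρ' i) ≤ ∑ i, Ψ (ρ i) := by
    intro c hc hne hs
    have hcx : ∀ x, ∑ i, c i * ρ i x = 0 := by
      intro x
      have := congrFun hc x
      simpa only [Finset.sum_apply, Pi.smul_apply, smul_eq_mul, Pi.zero_apply] using this
    obtain ⟨j, hj⟩ := Finite.exists_min c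
    rcases lt_or_ge (c j) 0 with hneg | hpos
    · have hcoef : ∀ i, 0 ≤ 1 + (-1 / c j) * c i := by
        intro i
        have h5 : -1 / c j * c i = -(c i / c j) := by ring
        rw [h5]
        have h6 : c i / c j ≤ 1 := (div_le_one_of_neg hneg).2 (hj i)
        linarith
      have hu : 0 ≤ -1 / c j := div_nonneg_of_nonpos (by norm_num) hneg.le
      refine drop (fun i => (1 + (-1 / c j) * c i) • ρ i) j ?_ ?_ ?_ ?_
      · intro i x
        exact mul_nonneg (hcoef i) (hρ i x)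
      · have : 1 + -1 / c j * c j = 0 := by
          rw [div_mul_cancel₀ _ hneg.ne]
          norm_num
        change (1 + -1 / c j * c j) • ρ j = 0
        rw [this, zero_smul]
      · intro x
        have : ∀ i, ((1 + (-1 / c j) * c i) • ρ i) x = ρ i x + (-1 / c j) * (c i * ρ i x) := by
          intro i
          rw [Pi.smul_apply, smul_eq_mul]
          ring
        rw [Finset.sum_congr rfl fun i _ => this i, Finset.sum_add_distrib, ← Finset.mul_sum,
          hcx x, mul_zero, add_zero]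
      · have : ∀ i, Ψ ((1 + (-1 / c j) * c i) • ρ i) = Ψ (ρ i) + (-1 / c j) * (c i * Ψ (ρ i)) := by
          intro i
          rw [hh _ (hcoef i)]
          ring
        rw [Finset.sum_congr rfl fun i _ => this i, Finset.sum_add_distrib, ← Finset.mul_sum]
        have := mul_nonpos_of_nonneg_of_nonpos hu hs
        linarith
    · obtain ⟨k, hk⟩ := hne
      have hall : ∀ i, 0 ≤ c i := fun i => hpos.trans (hj i)
      refine drop ρ k hρ ?_ (fun _ => rfl) le_rfl
      funext x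
      have h5 := (Finset.sum_eq_zero_iff_of_nonneg
        (fun i _ => mul_nonneg (hall i) (hρ i x))).1 (hcx x) k (Finset.mem_univ k)
      rcases mul_eq_zero.1 h5 with h | h
      · exact absurd h hk
      · exact h
  have hdep : ¬ LinearIndependent ℝ ρ := by
    intro hli
    have := hli.fintype_card_le_finrank
    rw [Fintype.card_fin, Module.finrank_fintype_fun_eq_card] at this
    omega
  obtain ⟨c, hc, hne⟩ := Fintype.not_linearIndependent_iff.1 hdep
  rcases le_total (∑ i, c i * Ψ (ρ i)) 0 with h | h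
  · exact main c hc hne h
  · refine main (fun i => -c i) ?_ ?_ ?_
    · simp only [neg_smul, Finset.sum_neg_distrib, hc, neg_zero]
    · obtain ⟨i, hi⟩ := hne
      exact ⟨i, neg_ne_zero.2 hi⟩
    · simp only [neg_mul, Finset.sum_neg_distrib]
      linarith

end Pool.Agent.Lib.P325s
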