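import Mathlib

/-!
Correlated sampling for a fractional partition of the vertices of a weighted graph.
-/

open scoped BigOperators

namespace Pool.Agent.Lib.P325s

namespace SampAux

/-- Layer cake of a nonnegative function on a finite set, as a nested family of sets. -/
theorem exists_layers {V : Type} [Fintype V] [DecidableEq V] :
    ∀ (m : ℕ) (q : V → ℝ), (∀ x, 0 ≤ q x) →
      (Finset.univ.filter (fun x => 0 < q x)).card = m →
      ∃ (n : ℕ) (g : Fin n → ℝ) (B : Fin n → Finset V), (∀ j, 0 ≤ g j) ∧
        ∀ x y, min (q x) (q y) = ∑ j, (if x ∈ B j ∧ y ∈ B j then g j else 0) := by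
  intro m
  induction m using Nat.strong_induction_on with
  | _ m ih =>
    intro q hq hm
    by_cases hB : (Finset.univ.filter (fun x => 0 < q x)).Nonempty
    · set B0 := Finset.univ.filter (fun x => 0 < q x) with hB0
      obtain ⟨x0, hx0, hmin⟩ := Finset.exists_min_image B0 q hB
      set c := q x0 with hc
      have hcpos : 0 < c := by
        have := (Finset.mem_filter.1 hx0).2
        exact this
      set q' : V → ℝ := fun x => if x ∈ B0 then q x - c else 0 with hq'
      have hq'0 : ∀ x, 0 ≤ q' x := by
        intro x
        simp only [hq']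
        split_ifs with h
        · have := hmin x h
          linarith
        · exact le_rfl
      have hsub : Finset.univ.filter (fun x => 0 < q' x) ⊂ B0 := by
        rw [Finset.ssubset_iff_of_subset]
        · refine ⟨x0, hx0, ?_⟩
          simp only [Finset.mem_filter, Finset.mem_univ, true_and, hq', if_pos hx0]
          simp [hc]
        · intro x hx
          by_contra hxB
          have h1 := (Finset.mem_filter.1 hx).2
          simp only [hq', if_neg hxB] at h1
          exact lt_irrefl _ h1
      have hcard := Finset.card_lt_card hsub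
      rw [hm] at hcard
      obtain ⟨n, g, B, hg, hgB⟩ := ih _ hcard q' hq'0 rfl
      refine ⟨n + 1, Fin.cons c g, Fin.cons B0 B, ?_, ?_⟩
      · intro j
        refine Fin.cases ?_ ?_ j
        · simpa using hcpos.le
        · intro i
          simpa using hg i
      · intro x y
        rw [Fin.sum_univ_succ]
        simp only [Fin.cons_zero, Fin.cons_succ]
        rw [← hgB x y]
        have hout : ∀ x, x ∉ B0 → q x = 0 := by
          intro x hx
          by_contra hne
          exact hx (Finset.mem_filter.2 ⟨Finset.mem_univ _, lt_of_le_of_ne (hq x) (Ne.symm hne)⟩)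
        by_cases hx : x ∈ B0
        · by_cases hy : y ∈ B0
          · simp only [hx, hy, and_self, if_true, hq']
            rw [← min_add_add_left]
            congr 1 <;> ring
          · rw [if_neg (fun h => hy h.2), zero_add, hout y hy]
            have : q' y = 0 := by simp only [hq', if_neg hy]
            rw [this, min_eq_right (hq x), min_eq_right (hq'0 x)]
        · rw [if_neg (fun h => hx h.1), zero_add, hout x hx]
          have : q' x = 0 := by simp only [hq', if_neg hx]
          rw [this, min_eq_left (hq y), min_eq_left (hq'0 y)]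
    · rw [Finset.not_nonempty_iff_eq_empty] at hB
      refine ⟨0, Fin.elim0, Fin.elim0, fun j => j.elim0, ?_⟩
      intro x y
      have hz : ∀ x, q x = 0 := by
        intro x
        by_contra hne
        have : x ∈ Finset.univ.filter (fun x => 0 < q x) :=
          Finset.mem_filter.2 ⟨Finset.mem_univ _, lt_of_le_of_ne (hq x) (Ne.symm hne)⟩
        rw [hB] at this
        exact absurd this (Finset.notMem_empty x)
      simp [hz]

variable {V I κ J : Type} [Fintype V] [DecidableEq V] [Fintype I] [DecidableEq I]
  [Fintype κ] [Fintype J]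

/-- The cost of an item for the pair `e`. -/
noncomputable def hcost (a b : κ → V) (B : I → κ → ℝ) (S : J → Finset V) (c : J → I) (j : J)
    (e : κ) : ℝ :=
  if a e ∈ S j ∧ b e ∈ S j then B (c j) e else if a e ∈ S j ∨ b e ∈ S j then 1 else 0

theorem greedy [Nonempty I] (a b : κ → V) (ω : κ → ℝ) (hω : ∀ e, 0 ≤ ω e) (B : I → κ → ℝ)
    (hB : ∀ i e, 0 ≤ B i e ∧ B i e ≤ 1) (S : J → Finset V) (c : J → I) (g : J → ℝ)
    (hg : ∀ j, 0 ≤ g j) (hcov : ∀ x, 0 < ∑ j, (if x ∈ S j then g j else 0))
    (hM : ∀ e, 1 ≤ ∑ j, (if a e ∈ S j ∨ b e ∈ S j then g j else 0)) :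
    ∀ (m : ℕ) (X : Finset V), X.card = m → ∃ z : V → I,
      ∑ e, (if a e ∈ X ∧ b e ∈ X then ω e * (if z (a e) = z (b e) then B (z (a e)) e else 1)
        else 0) ≤
      ∑ e, (if a e ∈ X ∧ b e ∈ X then ω e * ∑ j, g j * hcost a b B S c j e else 0) := by
  have hh0 : ∀ j e, 0 ≤ hcost a b B S c j e := by
    intro j e
    unfold hcost
    split_ifs
    · exact (hB _ _).1
    · exact zero_le_one
    · exact le_rfl
  have hF0 : ∀ e, 0 ≤ ∑ j, g j * hcost a b B S c j e := fun e =>
    Finset.sum_nonneg (fun j _ => mul_nonneg (hg j) (hh0 j e))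
  intro m
  induction m using Nat.strong_induction_on with
  | _ m ih =>
    intro X hX
    by_cases hXe : X.Nonempty
    · set JX := Finset.univ.filter (fun j : J => (S j ∩ X).Nonempty) with hJX
      obtain ⟨x0, hx0⟩ := hXe
      -- weight of the items meeting X is positive
      have hpos : ∃ j ∈ JX, 0 < g j := by
        by_contra hcon
        push Not at hcon
        have h1 := hcov x0
        have h2 : ∑ j, (if x0 ∈ S j then g j else 0) ≤ 0 := by
          apply Finset.sum_nonpos
          intro j _
          split_ifs with h
          · apply hcon j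
            rw [hJX, Finset.mem_filter]
            exact ⟨Finset.mem_univ _, x0, Finset.mem_inter.2 ⟨h, hx0⟩⟩
          · exact le_rfl
        linarith
      -- labelings from the induction hypothesis
      have hz : ∀ j ∈ JX, ∃ z : V → I,
          ∑ e, (if a e ∈ X ∧ b e ∈ X then
            ω e * (if z (a e) = z (b e) then B (z (a e)) e else 1) else 0) ≤
          ∑ e, (if a e ∈ X ∧ b e ∈ X then ω e * (hcost a b B S c j e +
            (if a e ∈ S j ∨ b e ∈ S j then 0 else ∑ j', g j' * hcost a b B S c j' e)) else 0) := by
        intro j hj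
        have hj' := (Finset.mem_filter.1 hj).2
        have hlt : (X \ S j).card < m := by
          rw [← hX]
          apply Finset.card_lt_card
          rw [Finset.ssubset_iff_of_subset Finset.sdiff_subset]
          obtain ⟨y, hy⟩ := hj'
          rw [Finset.mem_inter] at hy
          exact ⟨y, hy.2, fun h => (Finset.mem_sdiff.1 h).2 hy.1⟩
        obtain ⟨z, hz⟩ := ih _ hlt (X \ S j) rfl
        refine ⟨fun x => if x ∈ S j then c j else z x, ?_⟩
        have key : ∀ e, (if a e ∈ X ∧ b e ∈ X then
            ω e * (if (if a e ∈ S j then c j else z (a e)) = (if b e ∈ S j then c j else z (b e))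
              then B (if a e ∈ S j then c j else z (a e)) e else 1) else 0) ≤
            (if a e ∈ X ∧ b e ∈ X then ω e * hcost a b B S c j e else 0) +
            (if a e ∈ X \ S j ∧ b e ∈ X \ S j then
              ω e * (if z (a e) = z (b e) then B (z (a e)) e else 1) else 0) := by
          intro e
          have hωe := hω e
          have hBc := hB (c j) e
          have hBz := hB (z (a e)) e
          have hBz' := hB (z (b e)) e
          by_cases hab : a e ∈ X ∧ b e ∈ X
          · rw [if_pos hab, if_pos hab]
            unfold hcost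
            simp only [Finset.mem_sdiff, hab.1, hab.2, true_and]
            by_cases h1 : a e ∈ S j <;> by_cases h2 : b e ∈ S j
            · simp [h1, h2]
            · simp only [h1, h2, if_true, if_false, not_true, false_and, and_false, or_false,
                add_zero]
              apply mul_le_mul_of_nonneg_left _ hωe
              split_ifs
              · exact hBc.2
              · exact le_rfl
            · simp only [h1, h2, if_true, if_false, not_true, and_false, or_true,
                add_zero, and_true]
              apply mul_le_mul_of_nonneg_left _ hωe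
              split_ifs
              · exact hBz.2
              · exact le_rfl
            · simp [h1, h2]
          · rw [if_neg hab, if_neg hab, zero_add]
            split_ifs
            · exact mul_nonneg hωe hBz.1
            · exact mul_nonneg hωe zero_le_one
            · exact le_rfl
        calc ∑ e, (if a e ∈ X ∧ b e ∈ X then
            ω e * (if (if a e ∈ S j then c j else z (a e)) = (if b e ∈ S j then c j else z (b e))
              then B (if a e ∈ S j then c j else z (a e)) e else 1) else 0)
            ≤ ∑ e, ((if a e ∈ X ∧ b e ∈ X then ω e * hcost a b B S c j e else 0) +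
              (if a e ∈ X \ S j ∧ b e ∈ X \ S j then
                ω e * (if z (a e) = z (b e) then B (z (a e)) e else 1) else 0)) :=
              Finset.sum_le_sum (fun e _ => key e)
          _ ≤ ∑ e, (if a e ∈ X ∧ b e ∈ X then ω e * hcost a b B S c j e else 0) +
              ∑ e, (if a e ∈ X \ S j ∧ b e ∈ X \ S j then
                ω e * ∑ j', g j' * hcost a b B S c j' e else 0) := by
              rw [Finset.sum_add_distrib]
              exact add_le_add le_rfl hz
          _ = _ := by
              rw [← Finset.sum_add_distrib]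
              apply Finset.sum_congr rfl
              intro e _
              by_cases hab : a e ∈ X ∧ b e ∈ X
              · simp only [Finset.mem_sdiff, hab.1, hab.2, true_and, and_self, if_true]
                by_cases h1 : a e ∈ S j <;> by_cases h2 : b e ∈ S j <;> simp [h1, h2, mul_add]
              · rw [if_neg hab, if_neg hab, if_neg, add_zero]
                rintro ⟨h1, h2⟩
                exact hab ⟨(Finset.mem_sdiff.1 h1).1, (Finset.mem_sdiff.1 h2).1⟩
      by_contra hcon
      push Not at hcon
      set RHS := ∑ e, (if a e ∈ X ∧ b e ∈ X then ω e * ∑ j, g j * hcost a b B S c j e else 0)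
        with hRHS
      choose! z hz using hz
      have h1 : ∑ j ∈ JX, g j * RHS < ∑ j ∈ JX, g j *
          ∑ e, (if a e ∈ X ∧ b e ∈ X then
            ω e * (if z j (a e) = z j (b e) then B (z j (a e)) e else 1) else 0) := by
        apply Finset.sum_lt_sum
        · intro j _
          exact mul_le_mul_of_nonneg_left (hcon (z j)).le (hg j)
        · obtain ⟨j, hj, hgj⟩ := hpos
          exact ⟨j, hj, mul_lt_mul_of_pos_left (hcon (z j)) hgj⟩
      have h2 : ∑ j ∈ JX, g j *
          ∑ e, (if a e ∈ X ∧ b e ∈ X then
            ω e * (if z j (a e) = z j (b e) then B (z j (a e)) e else 1) else 0) ≤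
          ∑ j ∈ JX, g j * ∑ e, (if a e ∈ X ∧ b e ∈ X then ω e * (hcost a b B S c j e +
            (if a e ∈ S j ∨ b e ∈ S j then 0 else ∑ j', g j' * hcost a b B S c j' e)) else 0) :=
        Finset.sum_le_sum (fun j hj => mul_le_mul_of_nonneg_left (hz j hj) (hg j))
      have h3 : ∑ j ∈ JX, g j * ∑ e, (if a e ∈ X ∧ b e ∈ X then ω e * (hcost a b B S c j e +
            (if a e ∈ S j ∨ b e ∈ S j then 0 else ∑ j', g j' * hcost a b B S c j' e)) else 0) ≤
          ∑ j ∈ JX, g j * RHS := by
        have swap : ∀ f : J → κ → ℝ, ∑ j ∈ JX, g j * ∑ e, f j e =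
            ∑ e, ∑ j ∈ JX, g j * f j e := by
          intro f
          simp_rw [Finset.mul_sum]
          exact Finset.sum_comm
        rw [← Finset.sum_mul, hRHS, Finset.mul_sum, swap]
        apply Finset.sum_le_sum
        intro e _
        by_cases hab : a e ∈ X ∧ b e ∈ X
        · simp only [if_pos hab]
          set F := ∑ j', g j' * hcost a b B S c j' e with hF
          have hFe : 0 ≤ F := hF0 e
          have e1 : ∑ j ∈ JX, g j * (ω e * (hcost a b B S c j e +
              (if a e ∈ S j ∨ b e ∈ S j then 0 else F))) =
              ω e * (∑ j ∈ JX, g j * hcost a b B S c j e +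
                ∑ j ∈ JX, g j * (if a e ∈ S j ∨ b e ∈ S j then 0 else F)) := by
            rw [← Finset.sum_add_distrib, Finset.mul_sum]
            apply Finset.sum_congr rfl
            intro j _
            ring
          have e2 : ∑ j ∈ JX, g j * hcost a b B S c j e = F := by
            rw [hF]
            apply Finset.sum_subset (Finset.subset_univ _)
            intro j _ hj
            have hno : ¬ (S j ∩ X).Nonempty := fun h =>
              hj (Finset.mem_filter.2 ⟨Finset.mem_univ _, h⟩)
            have ha : a e ∉ S j := fun h => hno ⟨a e, Finset.mem_inter.2 ⟨h, hab.1⟩⟩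
            have hb : b e ∉ S j := fun h => hno ⟨b e, Finset.mem_inter.2 ⟨h, hab.2⟩⟩
            simp [hcost, ha, hb]
          have e3 : ∑ j ∈ JX, g j * (if a e ∈ S j ∨ b e ∈ S j then 0 else F) =
              (∑ j ∈ JX, g j - ∑ j, (if a e ∈ S j ∨ b e ∈ S j then g j else 0)) * F := by
            have e4 : ∑ j, (if a e ∈ S j ∨ b e ∈ S j then g j else 0) =
                ∑ j ∈ JX, (if a e ∈ S j ∨ b e ∈ S j then g j else 0) := by
              symm
              apply Finset.sum_subset (Finset.subset_univ _)
              intro j _ hj
              have hno : ¬ (S j ∩ X).Nonempty := fun h =>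
                hj (Finset.mem_filter.2 ⟨Finset.mem_univ _, h⟩)
              have ha : a e ∉ S j := fun h => hno ⟨a e, Finset.mem_inter.2 ⟨h, hab.1⟩⟩
              have hb : b e ∉ S j := fun h => hno ⟨b e, Finset.mem_inter.2 ⟨h, hab.2⟩⟩
              simp [ha, hb]
            rw [e4, ← Finset.sum_sub_distrib, Finset.sum_mul]
            apply Finset.sum_congr rfl
            intro j _
            split_ifs <;> ring
          rw [e1, e2, e3]
          have hMe := hM e
          have h5 : F + (∑ j ∈ JX, g j - ∑ j, (if a e ∈ S j ∨ b e ∈ S j then g j else 0)) * F ≤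
              (∑ j ∈ JX, g j) * F := by nlinarith
          calc ω e * (F + (∑ j ∈ JX, g j -
              ∑ j, (if a e ∈ S j ∨ b e ∈ S j then g j else 0)) * F) ≤
              ω e * ((∑ j ∈ JX, g j) * F) := mul_le_mul_of_nonneg_left h5 (hω e)
            _ = (∑ j ∈ JX, g j) * (ω e * F) := by ring
        · simp [if_neg hab]
      linarith
    · rw [Finset.not_nonempty_iff_eq_empty] at hXe
      subst hXe
      refine ⟨fun _ => Classical.arbitrary I, ?_⟩
      simp

end SampAux

open SampAux

/-- Correlated sampling: a fractional partition `q` of the vertices can be rounded to a partition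
`z` such that every pair `(a e, b e)` of weight `ω e` pays 1 if it is separated and
`B (z (a e)) e` if it is not, and the total is at most
`∑ ω e ∑ i (|q i (a e) - q i (b e)| + min (q i (a e)) (q i (b e)) B i e)`. -/
theorem sampling {V I κ : Type} [Fintype V] [DecidableEq V] [Fintype I] [DecidableEq I]
    [Nonempty I] [Fintype κ] (q : I → V → ℝ) (hq : ∀ i x, 0 ≤ q i x)
    (hq1 : ∀ x, ∑ i, q i x = 1) (a b : κ → V) (ω : κ → ℝ) (hω : ∀ e, 0 ≤ ω e)
    (B : I → κ → ℝ) (hB : ∀ i e, 0 ≤ B i e ∧ B i e ≤ 1) :
    ∃ z : V → I, ∑ e, ω e * (if z (a e) = z (b e) then B (z (a e)) e else 1) ≤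
      ∑ e, ω e * ∑ i, (|q i (a e) - q i (b e)| + min (q i (a e)) (q i (b e)) * B i e) := by
  have hlay : ∀ i, ∃ (n : ℕ) (g : Fin n → ℝ) (S : Fin n → Finset V), (∀ j, 0 ≤ g j) ∧
      ∀ x y, min (q i x) (q i y) = ∑ j, (if x ∈ S j ∧ y ∈ S j then g j else 0) :=
    fun i => exists_layers _ (q i) (hq i) rfl
  choose n g S hg hgS using hlay
  have hx : ∀ i x, q i x = ∑ j, (if x ∈ S i j then g i j else 0) := by
    intro i x
    have := hgS i x x
    simpa using this
  -- the items
  let J := Σ i : I, Fin (n i)
  have hsum : ∀ f : J → ℝ, ∑ p : J, f p = ∑ i, ∑ j, f ⟨i, j⟩ := fun f =>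
    Fintype.sum_sigma f
  have hor : ∀ i x y, ∑ j, (if x ∈ S i j ∨ y ∈ S i j then g i j else 0) =
      max (q i x) (q i y) := by
    intro i x y
    have h1 : ∑ j, (if x ∈ S i j ∨ y ∈ S i j then g i j else 0) +
        ∑ j, (if x ∈ S i j ∧ y ∈ S i j then g i j else 0) = q i x + q i y := by
      rw [hx i x, hx i y, ← Finset.sum_add_distrib, ← Finset.sum_add_distrib]
      apply Finset.sum_congr rfl
      intro j _
      by_cases h1 : x ∈ S i j <;> by_cases h2 : y ∈ S i j <;> simp [h1, h2]
    rw [← hgS i x y] at h1
    have h2 := max_add_min (q i x) (q i y)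
    linarith
  obtain ⟨z, hz⟩ := greedy (J := J) a b ω hω B hB (fun p => S p.1 p.2) (fun p => p.1)
    (fun p => g p.1 p.2) (fun p => hg p.1 p.2)
    (by
      intro x
      rw [hsum]
      have : ∑ i, ∑ j, (if x ∈ S i j then g i j else 0) = 1 := by
        rw [← hq1 x]
        exact Finset.sum_congr rfl (fun i _ => (hx i x).symm)
      simp only
      rw [this]
      exact zero_lt_one)
    (by
      intro e
      rw [hsum]
      simp only
      simp_rw [hor]
      calc (1 : ℝ) = ∑ i, q i (a e) := (hq1 _).symm
        _ ≤ ∑ i, max (q i (a e)) (q i (b e)) :=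
          Finset.sum_le_sum (fun i _ => le_max_left _ _))
    _ Finset.univ rfl
  refine ⟨z, ?_⟩
  simp only [Finset.mem_univ, and_self, if_true] at hz
  refine hz.trans (le_of_eq ?_)
  apply Finset.sum_congr rfl
  intro e _
  congr 1
  rw [hsum]
  apply Finset.sum_congr rfl
  intro i _
  simp only [hcost]
  have h1 : ∑ j, g i j * (if a e ∈ S i j ∧ b e ∈ S i j then B i e else
      if a e ∈ S i j ∨ b e ∈ S i j then 1 else 0) =
      (∑ j, (if a e ∈ S i j ∧ b e ∈ S i j then g i j else 0)) * B i e +
      (∑ j, (if a e ∈ S i j ∨ b e ∈ S i j then g i j else 0) -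
        ∑ j, (if a e ∈ S i j ∧ b e ∈ S i j then g i j else 0)) := by
    rw [Finset.sum_mul, ← Finset.sum_sub_distrib, ← Finset.sum_add_distrib]
    apply Finset.sum_congr rfl
    intro j _
    by_cases h1 : a e ∈ S i j <;> by_cases h2 : b e ∈ S i j <;> simp [h1, h2]
  rw [h1, hor, ← hgS, max_sub_min_eq_abs']
  ring

end Pool.Agent.Lib.P325s
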