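import Pool.Agent.Lib.P325s.FuncDefs

/-!
P325s.SplitCut: the change of the Hellinger cost when the small part `u * ρ * f` is split off.

PROOF. With `a = ρ (s e)`, `b = ρ (t e)`, `y = f (s e)`, `z = f (t e)` the contribution of the edge
`e` to `cutEn (uρf) + cutEn (ρ(1-uf)) - cutEn ρ` is
`2 w √(ab) (1 - √((1-uy)(1-uz)) - u √(yz))`
(expand the squares, `√(u a y) √(u b z) = u √(ab) √(yz)` etc.). For `0 ≤ uy, uz ≤ 1` one has
`√((1-uy)(1-uz)) ≥ 1 - u(y+z)/2 - u²(y+z)²/2`: with `h = u(y+z)` one has `(1-uy)(1-uz) ≥ 1 - h` and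
`√(1-h) ≥ 1 - h/2 - h²/2` for `0 ≤ h ≤ 1` (square both sides: the right side is `≥ 0` and
`(1 - h/2 - h²/2)² = (1-h)(1+h/2)²·(1-h) ≤ 1 - h` because `(1-h)(1+h/2)² ≤ 1`), and for `1 < h` the right
side is `≤ 0`.
Hence the contribution is at most `2 w √(ab) (u (y+z)/2 - u √(yz) + u² (y+z)²/2)
= u w √(ab) (√y - √z)² + u² w √(ab) (y+z)²`. Take `C = ∑ e, w e * √(ρ (s e) * ρ (t e)) * (f (s e) + f (t e)) ^ 2`.
-/

open scoped BigOperators

namespace Pool.Agent.Lib.P325s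

namespace SplitCutAux

theorem pq_ge {h q : ℝ} (hh : 0 ≤ h) (hq : 0 ≤ q) (hqq : 1 - h ≤ q ^ 2) :
    1 - h / 2 - h ^ 2 / 2 ≤ q := by
  rcases le_or_gt h 1 with h1 | h1
  · have e1 : 1 - h / 2 - h ^ 2 / 2 = (1 - h) * (1 + h / 2) := by ring
    have e2 : (1 - h / 2 - h ^ 2 / 2) ^ 2 ≤ q ^ 2 := by
      refine le_trans ?_ hqq
      have e3 : (1 - h) * (1 + h / 2) ^ 2 ≤ 1 := by
        nlinarith [sq_nonneg h, pow_nonneg hh 3]
      calc (1 - h / 2 - h ^ 2 / 2) ^ 2 = (1 - h) * ((1 - h) * (1 + h / 2) ^ 2) := by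
            rw [e1]; ring
        _ ≤ (1 - h) * 1 := mul_le_mul_of_nonneg_left e3 (by linarith)
        _ = 1 - h := mul_one _
    exact le_of_sq_le_sq e2 hq
  · nlinarith

theorem edge {a b y z u : ℝ} (ha : 0 ≤ a) (hb : 0 ≤ b) (hy : 0 ≤ y) (hz : 0 ≤ z) (hu : 0 < u)
    (h1 : u * y ≤ 1) (h2 : u * z ≤ 1) :
    (√(u * (a * y)) - √(u * (b * z))) ^ 2 + (√(a * (1 - u * y)) - √(b * (1 - u * z))) ^ 2 -
      (√a - √b) ^ 2 ≤
    u * (√(a * b) * (√y - √z) ^ 2) + √(a * b) * (y + z) ^ 2 * u ^ 2 := by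
  rw [Real.sqrt_mul hu.le, Real.sqrt_mul ha, Real.sqrt_mul hu.le, Real.sqrt_mul hb,
    Real.sqrt_mul ha, Real.sqrt_mul hb, Real.sqrt_mul ha]
  have eu := Real.sq_sqrt hu.le
  have ea := Real.sq_sqrt ha
  have eb := Real.sq_sqrt hb
  have ey := Real.sq_sqrt hy
  have ez := Real.sq_sqrt hz
  have eP := Real.sq_sqrt (show 0 ≤ 1 - u * y by linarith)
  have eQ := Real.sq_sqrt (show 0 ≤ 1 - u * z by linarith)
  have pA := Real.sqrt_nonneg a
  have pB := Real.sqrt_nonneg b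
  have pP := Real.sqrt_nonneg (1 - u * y)
  have pQ := Real.sqrt_nonneg (1 - u * z)
  set U := √u
  set A := √a
  set B := √b
  set Y := √y
  set Z := √z
  set P := √(1 - u * y)
  set Q := √(1 - u * z)
  have hPQ : 1 - u * (y + z) / 2 - (u * (y + z)) ^ 2 / 2 ≤ P * Q := by
    apply pq_ge (by positivity) (by positivity)
    rw [mul_pow, eP, eQ]
    nlinarith [mul_nonneg (mul_nonneg hu.le hy) (mul_nonneg hu.le hz)]
  have key : u * (A * B * (Y - Z) ^ 2) + A * B * (y + z) ^ 2 * u ^ 2 -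
      ((U * (A * Y) - U * (B * Z)) ^ 2 + (A * P - B * Q) ^ 2 - (A - B) ^ 2) =
      2 * (A * B) * (P * Q - (1 - u * (y + z) / 2 - (u * (y + z)) ^ 2 / 2)) := by
    have x1 : (U * (A * Y) - U * (B * Z)) ^ 2 = u * (A * Y - B * Z) ^ 2 := by
      rw [← eu]; ring
    have x2 : (A * P - B * Q) ^ 2 = A ^ 2 * (1 - u * y) + B ^ 2 * (1 - u * z) -
        2 * (A * B) * (P * Q) := by
      rw [← eP, ← eQ]; ring
    rw [x1, x2, ← ey, ← ez]
    ring
  have h3 : 0 ≤ 2 * (A * B) * (P * Q - (1 - u * (y + z) / 2 - (u * (y + z)) ^ 2 / 2)) := by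
    apply mul_nonneg (by positivity)
    linarith
  linarith

end SplitCutAux

theorem split_cut {V ι : Type} [Fintype ι] (s t : ι → V) {w : ι → ℝ} (hw : ∀ e, 0 ≤ w e)
    {ρ f : V → ℝ} (hρ : ∀ x, 0 ≤ ρ x) (hf : ∀ x, 0 ≤ f x) :
    ∃ C : ℝ, 0 ≤ C ∧ ∀ u : ℝ, 0 < u → (∀ x, u * f x ≤ 1) →
      cutEn s t w (fun x => u * (ρ x * f x)) + cutEn s t w (fun x => ρ x * (1 - u * f x)) -
        cutEn s t w ρ ≤
      u * (∑ e, w e * (√(ρ (s e) * ρ (t e)) * (√(f (s e)) - √(f (t e))) ^ 2)) + C * u ^ 2 := by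
  refine ⟨∑ e, w e * (√(ρ (s e) * ρ (t e)) * (f (s e) + f (t e)) ^ 2), ?_, ?_⟩
  · exact Finset.sum_nonneg fun e _ => mul_nonneg (hw e)
      (mul_nonneg (Real.sqrt_nonneg _) (sq_nonneg _))
  · intro u hu hu1
    unfold cutEn
    rw [← Finset.sum_add_distrib, ← Finset.sum_sub_distrib, Finset.mul_sum, Finset.sum_mul,
      ← Finset.sum_add_distrib]
    apply Finset.sum_le_sum
    intro e _
    have h := SplitCutAux.edge (hρ (s e)) (hρ (t e)) (hf (s e)) (hf (t e)) hu (hu1 (s e))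
      (hu1 (t e))
    have h2 := mul_le_mul_of_nonneg_left h (hw e)
    linarith

end Pool.Agent.Lib.P325s
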